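import Pool.Agent.Helper81.MT.Glb

/-! ADAPTER between leaves and the exact calculus, part 1: comparison of partitions on a typical event; change of the
point of a leaf by an equal point of the ring of functions to full precision. -/

set_option autoImplicit false

namespace Pool.Agent.Helper81.AD

open Finset Filter Topology Matrix Pool.Agent.Helper69.RK Pool.Agent.Helper31.EC Pool.Agent.Helper31.EC.Sp
open Pool.Agent.Helper40.EL Pool.Agent.Helper89.LX Pool.Agent.Helper3.LF Pool.Agent.Helper84.MT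

noncomputable section

variable {S T : Sp} {M : ℕ} {E : ℕ → ℕ} {ι ι' : Type}

/-- comparison of partitions on a typical event -/
theorem PLe_of_typ {A : ∀ k, (S.F k).Ω → Prop} (hA : Typ A) {P R : Part S} (hPR : PLe (P.rest A) (R.rest A))
    (hB : ∃ C : ℝ, ∀ᶠ k in UF, (S.F k).pb (fun ω => ¬ A k ω) ≠ 0 →
      h ((S.F k).rmap (fun ω => ¬ A k ω) (P k)) ((S.F k).rmap (fun ω => ¬ A k ω) (R k)) ≤ C * (S.F k).n) :
    PLe P R := by
  obtain ⟨C, hC⟩ := hB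
  have hp : Tendsto (S.pr A) UF (𝓝 1) := (Typ_iff A).mp hA
  have h1 : Tendsto (fun k => h ((S.F k).rmap (A k) (P k)) ((S.F k).rmap (A k) (R k)) / (S.F k).n) UF (𝓝 0) := hPR
  have h2 : Tendsto (fun k => S.pr A k * (h ((S.F k).rmap (A k) (P k)) ((S.F k).rmap (A k) (R k)) / (S.F k).n) +
      (1 - S.pr A k) * |C| + 1 / (S.F k).n) UF (𝓝 (1 * 0 + (1 - 1) * |C| + 0)) :=
    ((hp.mul h1).add ((hp.const_sub 1).mul_const _)).add (S.div_n_tendsto 1)
  rw [sub_self, zero_mul, mul_zero, add_zero, add_zero] at h2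
  refine squeeze_zero' (Eventually.of_forall fun k => div_nonneg (h_nonneg _ _) (S.F k).pos.le) ?_ h2
  filter_upwards [hC] with k hk
  have hn := (S.F k).pos
  have h3 := ((S.F k).h_rsplit (A k) (P k) (R k)).2
  have e4 : S.pr A k = (S.F k).pb (A k) := rfl
  have h5 := (S.F k).pb_add_compl (A k)
  have h6 : (1 - (S.F k).pb (A k)) * h ((S.F k).rmap (fun ω => ¬ A k ω) (P k))
      ((S.F k).rmap (fun ω => ¬ A k ω) (R k)) ≤ (1 - (S.F k).pb (A k)) * (|C| * (S.F k).n) := by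
    have h7 : 1 - (S.F k).pb (A k) = (S.F k).pb (fun ω => ¬ A k ω) := by linarith
    rw [h7]
    by_cases h0 : (S.F k).pb (fun ω => ¬ A k ω) = 0
    · rw [h0, zero_mul, zero_mul]
    · apply mul_le_mul_of_nonneg_left _ ((S.F k).pb_nonneg _)
      exact (hk h0).trans (mul_le_mul_of_nonneg_right (le_abs_self C) hn.le)
  have h8 := div_le_div_of_nonneg_right (h3.trans (add_le_add (add_le_add le_rfl h6) le_rfl)) hn.le
  refine h8.trans (le_of_eq ?_)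
  rw [e4]
  field_simp

theorem PLe_of_typ' {A : ∀ k, (S.F k).Ω → Prop} (hA : Typ A) {P R : Part S} (hPR : PLe (P.rest A) (R.rest A))
    (hB : (P.rest fun k ω => ¬ A k ω).Bd) : PLe P R := by
  apply PLe_of_typ hA hPR
  obtain ⟨C, hC⟩ := hB
  refine ⟨C, ?_⟩
  filter_upwards [hC] with k hk _
  have h1 : H ((S.F k).rmap (fun ω => ¬ A k ω) (P k)) / (S.F k).n ≤ C := (le_abs_self _).trans hk
  rw [div_le_iff₀ (S.F k).pos] at h1
  exact (h_le_H _ _).trans h1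

/-- a leaf on an event of positive probability -/
def _root_.Pool.Agent.Helper84.MT.Leaf.rst (A : ∀ k, (S.F k).Ω → Prop) (hA : 0 < ul (S.pr A)) {Q : S.VV M}
    (l : Leaf S Q E) : Leaf (S.rest A) (Q.rest A) E := (l.im (Pj.id S) A hA).pull (Sp.imq (Pj.id S) A)

theorem rst_win (A : ∀ k, (S.F k).Ω → Prop) (hA : 0 < ul (S.pr A)) {Q : S.VV M} (l : Leaf S Q E) (c : ℝ) :
    (l.rst A hA).win c = (l.win c).rest A := rfl

/-- THE LEAF OF AN EQUAL POINT -/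
def _root_.Pool.Agent.Helper84.MT.Leaf.toQ {Q Q' : S.VV M} (l : Leaf S Q E) {A : ∀ k, (S.F k).Ω → Prop} (hA : Typ A)
    (hE : ∀ D, D ≤ E D)
    (hQ : ∃ K : ℕ → ℝ, S.Sub K ∧ ∀ᶠ k in UF, ∀ ω, (S.F k).μ ω ≠ 0 → A k ω → ∀ i,
      |Q'.v k ω i - Q.v k ω i| ≤ K k * S.dl 1 k) : Leaf S Q' E :=
  Leaf.ofTyp hA hE ((l.rst A (Sp.ul_pr_typ_pos A hA)).congrQ (Q' := Q'.rest A) (by
    obtain ⟨K, hK, h1⟩ := hQ
    refine ⟨K, hK, ?_⟩
    filter_upwards [h1, pb_ne_zero (Sp.ul_pr_typ_pos A hA)] with k hk h0 ω hω i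
    have h2 : ((S.F k).rest (A k)).μ ω ≠ 0 := hω
    exact hk ω ((S.F k).rest_supp (A k) ω h2).1 (((S.F k).rest_supp (A k) ω h2).2 h0) i))

section
variable {Q Q' : S.VV M} (l : Leaf S Q E) {A : ∀ k, (S.F k).Ω → Prop} (hA : Typ A)
    (hE : ∀ D, D ≤ E D)
    (hQ : ∃ K : ℕ → ℝ, S.Sub K ∧ ∀ᶠ k in UF, ∀ ω, (S.F k).μ ω ≠ 0 → A k ω → ∀ i,
      |Q'.v k ω i - Q.v k ω i| ≤ K k * S.dl 1 k)

theorem toQ_e : (l.toQ hA hE hQ).e = l.e := rfl

theorem toQ_rest (c : ℝ) : ∀ᶠ k in UF, (((l.toQ hA hE hQ).win c).rest A) k = ((l.win c).rest A) k := by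
  filter_upwards [pb_ne_zero (Sp.ul_pr_typ_pos A hA)] with k h0
  exact LeafD.glue_win_pos (((l.rst A (Sp.ul_pr_typ_pos A hA)).congrQ _).toD) (LeafD.triv _ hE l.e) c h0

theorem toQ_La_rest : ∀ᶠ k in UF, ((pof (l.toQ hA hE hQ).La).rest A) k = ((pof l.La).rest A) k := by
  filter_upwards [pb_ne_zero (Sp.ul_pr_typ_pos A hA)] with k h0
  apply fc_rest_eq h0
  intro ω ω' a b
  exact glS_pos a b

theorem toQ_win_le (c : ℝ) : PLe ((l.toQ hA hE hQ).win c) (l.win c) := by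
  apply PLe_of_typ hA (PLe_of_ev_eq (toQ_rest l hA hE hQ c))
  obtain ⟨C, hC⟩ := pcd_Bd (Q'.rest fun k ω => ¬ A k ω)
  refine ⟨C, ?_⟩
  filter_upwards [hC] with k hk h0
  refine (h_le_H _ _).trans ?_
  have h1 : (S.F k).rmap (fun ω => ¬ A k ω) ((l.toQ hA hE hQ).win c k) = pcd (Q'.rest fun k ω => ¬ A k ω) k := by
    refine (LeafD.glue_win_neg (((l.rst A (Sp.ul_pr_typ_pos A hA)).congrQ _).toD) (LeafD.triv _ hE l.e) c h0).trans ?_
    show (fc (Setoid.ker ((Q'.rest fun k ω => ¬ A k ω).cellv 1 k) ⊓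
      Setoid.ker ((LeafD.triv (Q'.rest fun k ω => ¬ A k ω) hE l.e).Y.cellv c k)) : FL _) = fc _
    congr 1
    ext ω ω'
    constructor
    · exact fun r => r.1
    · intro r
      exact ⟨r, rfl⟩
  rw [h1]
  have h2 : H (pcd (Q'.rest fun k ω => ¬ A k ω) k) / (S.F k).n ≤ C := (le_abs_self _).trans hk
  rwa [div_le_iff₀ (S.F k).pos] at h2

theorem toQ_win_ge (c : ℝ) (hV : S.VB l.La) : PLe (l.win c) ((l.toQ hA hE hQ).win c) := by
  apply PLe_of_typ' hA (PLe_of_ev_eq ((toQ_rest l hA hE hQ c).mono fun _ hk => hk.symm))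
  exact pof_Bd (rest_VB (fun k ω => ¬ A k ω) (hV.inf (l.Y.bdd c)))

theorem toQ_La_le : PLe (pof (l.toQ hA hE hQ).La) (pof l.La) := by
  apply PLe_of_typ hA (PLe_of_ev_eq (toQ_La_rest l hA hE hQ))
  obtain ⟨C, hC⟩ := pcd_Bd (Q'.rest fun k ω => ¬ A k ω)
  refine ⟨C, ?_⟩
  filter_upwards [hC] with k hk h0
  refine (h_le_H _ _).trans ?_
  have h1 : (S.F k).rmap (fun ω => ¬ A k ω) (pof (l.toQ hA hE hQ).La k) = pcd (Q'.rest fun k ω => ¬ A k ω) k := by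
    apply fc_rest_eq h0
    intro ω ω' a b
    exact glS_neg a b
  rw [h1]
  have h2 : H (pcd (Q'.rest fun k ω => ¬ A k ω) k) / (S.F k).n ≤ C := (le_abs_self _).trans hk
  rwa [div_le_iff₀ (S.F k).pos] at h2

theorem toQ_La_ge (hV : S.VB l.La) : PLe (pof l.La) (pof (l.toQ hA hE hQ).La) := by
  apply PLe_of_typ' hA (PLe_of_ev_eq ((toQ_La_rest l hA hE hQ).mono fun _ hk => hk.symm))
  exact pof_Bd (rest_VB (fun k ω => ¬ A k ω) hV)

end

end

end Pool.Agent.Helper81.AD
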