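import Pool.Agent.Helper31.EC.Rl

/-! FRESH DIGITS: every space has an extension with a vector of variables in `[0,1]` which is real over all
informations of the space (product with a uniform space). -/

set_option autoImplicit false

namespace Pool.Agent.Helper81.AD

open Finset Filter Topology Pool.Agent.Helper69.RK Pool.Agent.Helper31.EC Pool.Agent.Helper31.EC.Sp

noncomputable section

/-- the product with a finite uniform space -/
def fu (F : FSp) (G : Type) [Fintype G] [Nonempty G] : FSp where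
  Ω := F.Ω × G
  ft := inferInstance
  μ := fun w => F.μ w.1 / Fintype.card G
  nn := fun w => div_nonneg (F.nn _) (Nat.cast_nonneg _)
  ms := by
    show ∑ w : F.Ω × G, F.μ w.1 / Fintype.card G = 1
    rw [Fintype.sum_prod_type]
    have h1 : ∀ ω : F.Ω, ∑ _g : G, F.μ ω / Fintype.card G = F.μ ω := by
      intro ω
      have h2 : (Fintype.card G : ℝ) ≠ 0 := by exact_mod_cast Fintype.card_ne_zero
      rw [Finset.sum_const, Finset.card_univ, nsmul_eq_mul]
      field_simp
    rw [Finset.sum_congr rfl fun ω _ => h1 ω]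
    exact F.ms
  Z := Setoid.comap Prod.fst F.Z
  n := F.n
  pos := F.pos

section
variable (F : FSp) (G : Type) [Fintype G] [Nonempty G]

theorem cardG_ne : (Fintype.card G : ℝ) ≠ 0 := by exact_mod_cast Fintype.card_ne_zero

theorem fu_law : push (Prod.fst : (fu F G).Ω → F.Ω) (fu F G).μ = F.μ := by
  funext ω
  show push (Prod.fst : F.Ω × G → F.Ω) (fun w : F.Ω × G => F.μ w.1 / Fintype.card G) ω = F.μ ω
  rw [push_ind, Fintype.sum_prod_type]
  have h1 : ∀ ω' : F.Ω, ∑ _g : G, e1_ind (ω' = ω) * (F.μ ω' / Fintype.card G) = e1_ind (ω' = ω) * F.μ ω' := by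
    intro ω'
    have h2 := cardG_ne G
    rw [Finset.sum_const, Finset.card_univ, nsmul_eq_mul]
    field_simp
  show ∑ ω' : F.Ω, ∑ _g : G, e1_ind (ω' = ω) * (F.μ ω' / Fintype.card G) = F.μ ω
  rw [Finset.sum_congr rfl fun ω' _ => h1 ω', Finset.sum_eq_single ω]
  · rw [e1_ind_pos rfl, one_mul]
  · intro b _ hb
    rw [e1_ind_neg hb, zero_mul]
  · intro h
    exact absurd (Finset.mem_univ _) h

/-- the entropy of the uniform variable given anything of the old space -/
theorem fu_e (B : Setoid F.Ω) : (fu F G).e (Setoid.ker Prod.snd) (Setoid.comap Prod.fst B) =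
    Real.logb 2 (Fintype.card G) := by
  classical
  have hc := cardG_ne G
  have hcp : (0 : ℝ) < Fintype.card G := by exact_mod_cast Fintype.card_pos
  have h1 : (fu F G).e (Setoid.ker Prod.snd) (Setoid.comap Prod.fst B) =
      CH (fu F G).μ (Prod.snd : (fu F G).Ω → G) (fun w : (fu F G).Ω => Quotient.mk B w.1) := by
    apply (fu F G).e_congr
    · intro w w' _ _
      exact Iff.rfl
    · intro w w' _ _
      exact (Quotient.eq (r := B)).symm
  rw [h1]
  unfold CH
  have h2 : ∀ w : (fu F G).Ω, (fu F G).μ w * (Real.logb 2 (pr (fu F G).μ (fun w : (fu F G).Ω => Quotient.mk B w.1) w) -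
      Real.logb 2 (pr (fu F G).μ (fun w' : (fu F G).Ω => ((Prod.snd : (fu F G).Ω → G) w', Quotient.mk B w'.1)) w)) =
      (fu F G).μ w * Real.logb 2 (Fintype.card G) := by
    intro w
    by_cases h0 : (fu F G).μ w = 0
    · rw [h0, zero_mul, zero_mul]
    · congr 1
      have e1 : pr (fu F G).μ (fun w : (fu F G).Ω => Quotient.mk B w.1) w =
          Fintype.card G * pr (fu F G).μ
            (fun w' : (fu F G).Ω => ((Prod.snd : (fu F G).Ω → G) w', Quotient.mk B w'.1)) w := by
        rw [e1_pr_ind, e1_pr_ind]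
        show (∑ w' : F.Ω × G, e1_ind (Quotient.mk B w'.1 = Quotient.mk B w.1) * (F.μ w'.1 / Fintype.card G)) =
          Fintype.card G * ∑ w' : F.Ω × G, e1_ind ((w'.2, Quotient.mk B w'.1) = (w.2, Quotient.mk B w.1)) *
            (F.μ w'.1 / Fintype.card G)
        rw [Fintype.sum_prod_type, Fintype.sum_prod_type, Finset.mul_sum]
        apply Finset.sum_congr rfl
        intro ω _
        by_cases hb : (Quotient.mk B ω) = Quotient.mk B w.1
        · have e2 : ∀ g : G, e1_ind ((g, Quotient.mk B ω) = (w.2, Quotient.mk B w.1)) * (F.μ ω / Fintype.card G) =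
              if g = w.2 then F.μ ω / (Fintype.card G : ℝ) else 0 := by
            intro g
            by_cases hg : g = w.2
            · rw [if_pos hg, e1_ind_pos (by rw [hg, hb]), one_mul]
            · rw [if_neg hg, e1_ind_neg (fun h => hg (Prod.ext_iff.mp h).1), zero_mul]
          show ∑ g : G, e1_ind (Quotient.mk B ω = Quotient.mk B w.1) * (F.μ ω / Fintype.card G) =
            Fintype.card G * ∑ g : G, e1_ind ((g, Quotient.mk B ω) = (w.2, Quotient.mk B w.1)) *
              (F.μ ω / Fintype.card G)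
          rw [Finset.sum_congr rfl fun g _ => e2 g, e1_ind_pos hb, one_mul, Finset.sum_const, Finset.card_univ,
            nsmul_eq_mul, Finset.sum_ite_eq' Finset.univ w.2, if_pos (Finset.mem_univ _)]
        · have e2 : ∀ g : G, e1_ind ((g, Quotient.mk B ω) = (w.2, Quotient.mk B w.1)) * (F.μ ω / Fintype.card G) =
              0 := by
            intro g
            rw [e1_ind_neg (fun h => hb (Prod.ext_iff.mp h).2), zero_mul]
          show ∑ g : G, e1_ind (Quotient.mk B ω = Quotient.mk B w.1) * (F.μ ω / Fintype.card G) =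
            Fintype.card G * ∑ g : G, e1_ind ((g, Quotient.mk B ω) = (w.2, Quotient.mk B w.1)) *
              (F.μ ω / Fintype.card G)
          rw [Finset.sum_congr rfl fun g _ => e2 g, e1_ind_neg hb, zero_mul, Finset.sum_const_zero, mul_zero]
      have h3 := e1_pr_pos (fu F G).μ
        (fun w' : (fu F G).Ω => ((Prod.snd : (fu F G).Ω → G) w', Quotient.mk B w'.1)) (fu F G).nn w h0
      rw [e1, Real.logb_mul hc h3.ne']
      ring
  rw [Finset.sum_congr rfl fun w _ => h2 w, ← Finset.sum_mul]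
  have h3 : ∑ w, (fu F G).μ w = 1 := (fu F G).ms
  rw [h3, one_mul]

end

/-! ### the extension -/

variable (S : Sp) (e : ℕ)

/-- number of the values of a coordinate -/
def fN (k : ℕ) : ℕ := ⌈(2 : ℝ) ^ (S.F k).n⌉₊

theorem fN_pos (k : ℕ) : 0 < fN S k := Nat.ceil_pos.mpr (by positivity)

instance (k : ℕ) : Nonempty (Fin e → Fin (fN S k)) := ⟨fun _ => ⟨0, fN_pos S k⟩⟩

/-- the extension by fresh digits -/
def frS : Sp := ⟨fun k => fu (S.F k) (Fin e → Fin (fN S k)), S.lim⟩

def frP : Pj (frS S e) S where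
  π := fun _ w => w.1
  law := fun k => fu_law (S.F k) (Fin e → Fin (fN S k))
  hZ := fun _ _ _ _ _ => Iff.rfl
  hn := fun _ => rfl

/-- the fresh variables -/
def frU : (frS S e).VV e where
  v := fun k w i => ((w.2 i : ℕ) : ℝ) / fN S k
  bd := by
    refine ⟨fun _ => 1, Sp.Sub_const _ zero_le_one, Eventually.of_forall fun k w _ i => ?_⟩
    have h1 : (0 : ℝ) < fN S k := by exact_mod_cast fN_pos S k
    have h2 : (((w.2 i : Fin (fN S k)) : ℕ) : ℝ) ≤ fN S k := by exact_mod_cast (w.2 i).2.le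
    rw [abs_of_nonneg (by positivity), div_le_one h1]
    exact h2

theorem frU_mem (k : ℕ) (w : ((frS S e).F k).Ω) (i : Fin e) : 0 ≤ (frU S e).v k w i ∧ (frU S e).v k w i ≤ 1 := by
  have h1 : (0 : ℝ) < fN S k := by exact_mod_cast fN_pos S k
  have h2 : (((w.2 i : Fin (fN S k)) : ℕ) : ℝ) ≤ fN S k := by exact_mod_cast (w.2 i).2.le
  refine ⟨?_, ?_⟩
  · show (0 : ℝ) ≤ ((w.2 i : ℕ) : ℝ) / fN S k
    positivity
  · show ((w.2 i : ℕ) : ℝ) / fN S k ≤ 1
    rw [div_le_one h1]
    exact h2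

/-- entropy of the cells of level `1` -/
theorem frU_ge (B : ∀ k, Setoid (S.F k).Ω) (k : ℕ) :
    (e : ℝ) * 1 - (e * 2) / (S.F k).n ≤ (frS S e).rt (fun k => Setoid.ker ((frU S e).cellv 1 k)) ((frP S e).pb B) k := by
  have hn := (S.F k).pos
  set F' : FSp := (frS S e).F k with hF'
  set G : Type := Fin e → Fin (fN S k) with hG
  set X : F'.Ω → Fin e → ℤ := fun w i => ((w.2 i : ℕ) : ℤ) with hX
  set C : Setoid F'.Ω := Setoid.ker ((frU S e).cellv 1 k) with hC
  set B' : Setoid F'.Ω := (frP S e).pb B k ⊓ F'.Z with hB'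
  have h1 : F'.e (Setoid.ker Prod.snd) B' = Real.logb 2 (Fintype.card G) :=
    fu_e (S.F k) G (B k ⊓ (S.F k).Z)
  have h2 : F'.e (Setoid.ker Prod.snd) B' ≤ F'.e (Setoid.ker X) (B' ⊓ C) + F'.e C B' := by
    have h3 := F'.e_triangle (Setoid.ker Prod.snd) C B'
    refine h3.trans (add_le_add ?_ le_rfl)
    rw [inf_comm]
    apply F'.e_mono
    intro w w' _ _ h4 _
    show w.2 = w'.2
    funext i
    have h5 : X w i = X w' i := congrFun h4 i
    have h6 : ((w.2 i : ℕ) : ℤ) = ((w'.2 i : ℕ) : ℤ) := h5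
    exact Fin.ext (by exact_mod_cast h6)
  have hN : (0 : ℝ) < fN S k := by exact_mod_cast fN_pos S k
  have hN1 : (2 : ℝ) ^ (S.F k).n ≤ fN S k := Nat.le_ceil _
  have hN2 : (fN S k : ℝ) ≤ 2 ^ (S.F k).n + 1 := (Nat.ceil_lt_add_one (by positivity)).le
  have hd : (frS S e).dl 1 k = ((2 : ℝ) ^ (S.F k).n)⁻¹ := by
    unfold Sp.dl
    rw [one_mul, Real.rpow_neg (by norm_num)]
    rfl
  have h3 : F'.e (Setoid.ker X) (B' ⊓ C) ≤ e * Real.logb 2 (3 + 1) := by
    apply F'.e_int_le X _ 3 (by norm_num)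
    intro w w' _ _ h4 i
    have h5 : |(frU S e).v k w i - (frU S e).v k w' i| ≤ (frS S e).dl 1 k :=
      abs_sub_le_of_floor_eq ((frS S e).dl_pos 1 k) (congrFun h4.2 i)
    have e1 : (frU S e).v k w i = ((w.2 i : ℕ) : ℝ) / fN S k := rfl
    have e2 : (frU S e).v k w' i = ((w'.2 i : ℕ) : ℝ) / fN S k := rfl
    rw [e1, e2, ← sub_div, abs_div, abs_of_pos hN, div_le_iff₀ hN, hd] at h5
    have e3 : ((X w i : ℤ) : ℝ) = ((w.2 i : ℕ) : ℝ) := by simp [hX]
    have e4 : ((X w' i : ℤ) : ℝ) = ((w'.2 i : ℕ) : ℝ) := by simp [hX]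
    rw [e3, e4]
    refine h5.trans ?_
    have h6 : (1 : ℝ) ≤ 2 ^ (S.F k).n := Real.one_le_rpow (by norm_num) hn.le
    have h7 : ((2 : ℝ) ^ (S.F k).n)⁻¹ * (fN S k : ℝ) ≤ ((2 : ℝ) ^ (S.F k).n)⁻¹ * (3 * 2 ^ (S.F k).n) :=
      mul_le_mul_of_nonneg_left (by linarith) (by positivity)
    refine h7.trans (le_of_eq ?_)
    field_simp
  have h4 : Real.logb 2 (3 + 1) = 2 := by
    rw [show (3 : ℝ) + 1 = 2 ^ (2 : ℝ) by norm_num, Real.logb_rpow (by norm_num) (by norm_num)]
  have h5 : (e : ℝ) * (S.F k).n ≤ Real.logb 2 (Fintype.card G) := by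
    have e1 : (Fintype.card G : ℝ) = (fN S k : ℝ) ^ e := by
      have e3 : Fintype.card (Fin e → Fin (fN S k)) = (fN S k) ^ e := by
        rw [Fintype.card_fun, Fintype.card_fin, Fintype.card_fin]
      show ((Fintype.card (Fin e → Fin (fN S k)) : ℕ) : ℝ) = _
      rw [e3]
      push_cast
      rfl
    rw [e1, ← Real.rpow_natCast, Real.logb_rpow_eq_mul_logb_of_pos hN]
    apply mul_le_mul_of_nonneg_left _ (Nat.cast_nonneg e)
    have e2 : (S.F k).n = Real.logb 2 (2 ^ (S.F k).n) := by rw [Real.logb_rpow (by norm_num) (by norm_num)]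
    calc (S.F k).n = Real.logb 2 (2 ^ (S.F k).n) := e2
      _ ≤ Real.logb 2 (fN S k) := Real.logb_le_logb_of_le (by norm_num) (by positivity) hN1
  have h6 : (e : ℝ) * (S.F k).n - e * 2 ≤ F'.e C B' := by
    rw [h4] at h3
    rw [h1] at h2
    linarith
  show (e : ℝ) * 1 - (e * 2) / (S.F k).n ≤ F'.e C B' / (S.F k).n
  rw [le_div_iff₀ hn]
  have e5 : ((e : ℝ) * 1 - (e * 2) / (S.F k).n) * (S.F k).n = e * (S.F k).n - e * 2 := by
    field_simp
  rw [e5]
  exact h6

/-- the fresh variables are real over every information of the old space -/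
theorem frU_real (y : S.L) : h ((frU S e).dg 1) ((frP S e).map y) = e := by
  apply le_antisymm
  · have h1 := (frU S e).H_dg_le (zero_le_one)
    rw [mul_one] at h1
    exact (h_le_H _ _).trans h1
  · induction y using cl_ind with | _ A
    have e1 : (frU S e).dg 1 = cl ((frU S e).bdd 1).toInf := io_eq ((frU S e).bdd 1)
    rw [e1, (frP S e).map_cl, h_cl]
    have h2 := ul_tendsto (UB_rt ((frU S e).bdd 1).toInf ((frP S e).mapI A).1)
    have h3 : Tendsto (fun k => (e : ℝ) * 1 - (e * 2) / (S.F k).n) UF (𝓝 ((e : ℝ) * 1 - 0)) :=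
      (S.div_n_tendsto (e * 2)).const_sub _
    rw [mul_one, sub_zero] at h3
    refine le_of_tendsto_of_tendsto h3 h2 (Eventually.of_forall fun k => ?_)
    have h4 := frU_ge S e A.1 k
    rw [mul_one] at h4
    exact h4

/-- FRESH DIGITS -/
theorem exists_fresh : ∃ (T : Sp) (p : Pj T S) (u : T.VV e), (∀ k w i, 0 ≤ u.v k w i ∧ u.v k w i ≤ 1) ∧
    ∀ y : S.L, h (u.dg 1) (p.map y) = e :=
  ⟨frS S e, frP S e, frU S e, frU_mem S e, frU_real S e⟩

end

end Pool.Agent.Helper81.AD
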