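import Pool.Agent.Helper81.AD.Pl

/-! ADAPTER, part 6: literal polynomials with tame coefficients as polynomials over the ring of functions to full
precision. -/

set_option autoImplicit false

namespace Pool.Agent.Helper81.AD

open Finset Filter Topology Matrix Pool.Agent.Helper69.RK Pool.Agent.Helper31.EC Pool.Agent.Helper31.EC.Sp
open Pool.Agent.Helper40.EL Pool.Agent.Helper89.LX Pool.Agent.Helper3.LF Pool.Agent.Helper84.MT

noncomputable section

variable {S T : Sp} {n : ℕ}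

/-- exponents of degree at most `d` -/
def exps (n d : ℕ) : Finset (Fin n →₀ ℕ) :=
  ((Finset.univ : Finset (Fin n → Fin (d + 1))).image fun f => Finsupp.equivFunOnFinite.symm fun i => (f i : ℕ)).filter
    fun a => ∑ i, a i ≤ d

theorem mem_exps {d : ℕ} {a : Fin n →₀ ℕ} (h : ∑ i, a i ≤ d) : a ∈ exps n d := by
  unfold exps
  rw [Finset.mem_filter, Finset.mem_image]
  refine ⟨⟨fun i => ⟨a i, ?_⟩, Finset.mem_univ _, ?_⟩, h⟩
  · have h1 := Finset.single_le_sum (f := fun i => a i) (fun i _ => Nat.zero_le _) (Finset.mem_univ i)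
    omega
  · ext i
    rfl

theorem exps_deg {d : ℕ} {a : Fin n →₀ ℕ} (h : a ∈ exps n d) : ∑ i, a i ≤ d := by
  unfold exps at h
  rw [Finset.mem_filter] at h
  exact h.2

theorem eval_exps {d : ℕ} (P : MvPolynomial (Fin n) ℝ) (hP : P.totalDegree ≤ d) (z : Fin n → ℝ) :
    MvPolynomial.eval z P = ∑ a ∈ exps n d, P.coeff a * ∏ i, z i ^ a i := by
  rw [MvPolynomial.eval_eq']
  apply Finset.sum_subset
  · intro a ha
    apply mem_exps
    have h1 : a.sum (fun _ n => n) ≤ P.totalDegree := MvPolynomial.le_totalDegree ha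
    rw [Finsupp.sum_fintype _ _ (fun _ => rfl)] at h1
    exact h1.trans hP
  · intro a _ ha
    rw [MvPolynomial.notMem_support_iff.mp ha, zero_mul]

/-- digits which are functions of a partition -/
theorem dg_le_of_PLe (f : TR S) (B : ∀ k, Setoid (S.F k).Ω) (A : S.L) (hA : PLe (fun k => fc (B k)) (rp A))
    (hf : ∀ᶠ k in UF, ∀ ω ω', (S.F k).μ ω ≠ 0 → (S.F k).μ ω' ≠ 0 → (S.F k).Z ω ω' → B k ω ω' →
      TR.ev f k ω = TR.ev f k ω') : TR.dg f 1 ≤ A := by
  have h1 : PLe (fun k => fc (Setoid.ker ((TR.vec (fun _ : Fin 1 => f)).cellv 1 k))) (fun k => fc (B k)) := by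
    apply PLe_cell _ _ _ (fun _ => 0) (S.Sub_const le_rfl)
    filter_upwards [hf] with k hk ω ω' a b z hr i
    have e1 : (TR.vec (fun _ : Fin 1 => f)).v k ω i - (TR.vec (fun _ : Fin 1 => f)).v k ω' i = 0 :=
      sub_eq_zero.mpr (hk ω ω' a b z hr)
    rw [e1, abs_zero, zero_mul]
  have e2 : TR.dg f 1 = cl ((TR.vec (fun _ : Fin 1 => f)).bdd 1).toInf := io_eq _
  rw [e2, ← PLe_rp]
  exact (rp_rpI _).1.trans (h1.trans hA)

/-- LIFT: a literal polynomial with tame coefficients which is a function of `A` -/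
theorem lift_poly (P : ∀ k, (S.F k).Ω → MvPolynomial (Fin n) ℝ) (d : ℕ) (hd : ∀ k ω, (P k ω).totalDegree ≤ d)
    (hb : ∃ K : ℕ → ℝ, S.Sub K ∧ ∀ᶠ k in UF, ∀ ω, (S.F k).μ ω ≠ 0 → ∀ a, |(P k ω).coeff a| ≤ K k)
    (B : ∀ k, Setoid (S.F k).Ω)
    (hfn : ∀ᶠ k in UF, ∀ ω ω', (S.F k).μ ω ≠ 0 → (S.F k).μ ω' ≠ 0 → (S.F k).Z ω ω' → B k ω ω' → P k ω = P k ω')
    (A : S.L) (hA : PLe (fun k => fc (B k)) (rp A)) :
    ∃ Φ : MvPolynomial (Fin n) (QS S), Φ ∈ QS.PK A ∧ Φ.totalDegree ≤ d ∧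
      ∀ {T : Sp} (p : Pj T S) (z : Fin n → TR T) (q : TR S),
        (∃ K : ℕ → ℝ, T.Sub K ∧ ∀ᶠ k in UF, ∀ w, (T.F k).μ w ≠ 0 →
          |TR.ev q k (p.π k w) - MvPolynomial.eval (fun i => TR.ev (z i) k w) (P k (p.π k w))| ≤ K k * T.dl 1 k) →
        p.qs (QS.mk q) = MvPolynomial.eval (fun i => QS.mk (z i)) (MvPolynomial.map p.qs Φ) := by
  set c : (Fin n →₀ ℕ) → TR S := fun a => ⟨fun k ω => (P k ω).coeff a, by
    obtain ⟨K, hK, h⟩ := hb
    exact ⟨K, hK, h.mono fun k hk ω hω => hk ω hω a⟩⟩ with hc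
  have hcd : ∀ a, QS.dg (QS.mk (c a)) 1 ≤ A := by
    intro a
    rw [QS.dg_mk _ le_rfl]
    apply dg_le_of_PLe _ B A hA
    filter_upwards [hfn] with k hk ω ω' s s' z hr
    show (P k ω).coeff a = (P k ω').coeff a
    rw [hk ω ω' s s' z hr]
  refine ⟨∑ a ∈ exps n d, MvPolynomial.monomial a (QS.mk (c a)), ?_, ?_, ?_⟩
  · exact Subring.sum_mem _ fun a _ => QS.monomial_mem a (hcd a)
  · refine (MvPolynomial.totalDegree_finsetSum _ _).trans (Finset.sup_le fun a ha => ?_)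
    refine (MvPolynomial.totalDegree_monomial_le _ _).trans ?_
    rw [Finsupp.sum_fintype _ _ (fun _ => rfl)]
    exact exps_deg ha
  · intro T p z q hq
    have e1 : MvPolynomial.eval (fun i => QS.mk (z i)) (MvPolynomial.map p.qs
        (∑ a ∈ exps n d, MvPolynomial.monomial a (QS.mk (c a)))) =
        QS.mk (∑ a ∈ exps n d, p.tr (c a) * ∏ i, z i ^ a i) := by
      rw [map_sum, map_sum, map_sum]
      apply Finset.sum_congr rfl
      intro a _
      rw [MvPolynomial.map_monomial, MvPolynomial.eval_monomial, Finsupp.prod_fintype _ _ (fun i => pow_zero _),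
        p.qs_mk, map_mul, map_prod]
      simp only [map_pow]
    rw [e1, p.qs_mk, QS.mk_eq]
    obtain ⟨K, hK, hh⟩ := hq
    refine ⟨fun _ _ => True, K, Typ_true, hK, ?_⟩
    filter_upwards [hh] with k hk w hw _
    have e2 : TR.ev (∑ a ∈ exps n d, p.tr (c a) * ∏ i, z i ^ a i) k w =
        MvPolynomial.eval (fun i => TR.ev (z i) k w) (P k (p.π k w)) := by
      rw [eval_exps _ (hd k _), ← TR.evh_apply, map_sum]
      apply Finset.sum_congr rfl
      intro a _
      rw [map_mul, map_prod]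
      simp only [map_pow, TR.evh_apply]
      rfl
    rw [e2]
    exact hk w hw

end

end Pool.Agent.Helper81.AD
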