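import Pool.Agent.Helper81.AD.Typ
import Pool.Agent.Helper31.EC.Sep

/-! ADAPTER between leaves and the exact calculus, part 2: a polynomial leaf of the exact calculus (`Y` real over `W`,
the point is the value at `Y` of polynomials with coefficients known to `W`) is a leaf of the multi-type layer. -/

set_option autoImplicit false

namespace Pool.Agent.Helper81.AD

open Finset Filter Topology Matrix Pool.Agent.Helper69.RK Pool.Agent.Helper31.EC Pool.Agent.Helper31.EC.Sp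
open Pool.Agent.Helper40.EL Pool.Agent.Helper89.LX Pool.Agent.Helper3.LF Pool.Agent.Helper84.MT

noncomputable section

variable {S T : Sp} {M e : ℕ}

/-- events which are typical for every index -/
theorem Typ_all {n : ℕ} (E : Fin n → ∀ k, (S.F k).Ω → Prop) (h : ∀ i, Typ (E i)) :
    Typ (fun k ω => ∀ i, E i k ω) := by
  have key : ∀ s : Finset (Fin n), Typ (fun k ω => ∀ i ∈ s, E i k ω) := by
    intro s
    induction s using Finset.induction_on with
    | empty => exact Typ_true.mono (Eventually.of_forall fun k ω _ _ i hi => by simp at hi)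
    | insert a s ha ih =>
      refine ((h a).and ih).mono (Eventually.of_forall fun k ω _ g i hi => ?_)
      rw [Finset.mem_insert] at hi
      rcases hi with rfl | hi
      · exact g.1
      · exact g.2 i hi
  exact (key Finset.univ).mono (Eventually.of_forall fun k ω _ g i => g i (Finset.mem_univ i))

/-- digits of a family of classes -/
theorem vd_mk {m : ℕ} (y : Fin m → TR S) {r : ℝ} (hr : r ≤ 1) : QS.vd (fun i => QS.mk (y i)) r = (TR.vec y).dg r := by
  rw [TR.vec_dg_eq]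
  unfold QS.vd
  congr 1
  funext i
  rw [QS.dg_mk _ hr]

/-! ### literal polynomials -/

section
variable (Φ : Fin M → MvPolynomial (Fin e) (QS S))

/-- indices of the coefficients -/
abbrev CI : Type := (j : Fin M) × {a // a ∈ (Φ j).support}

/-- numbers of the coefficients -/
def ix : Fin (Fintype.card (CI Φ)) ≃ CI Φ := (Fintype.equivFin (CI Φ)).symm

/-- representatives of the coefficients -/
def cf (n : Fin (Fintype.card (CI Φ))) : TR S := QS.rep ((Φ (ix Φ n).1).coeff (ix Φ n).2)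

/-- the vector of the coefficients -/
def cv : S.VV (Fintype.card (CI Φ)) := TR.vec (cf Φ)

/-- the literal value of a coefficient -/
def cu (k : ℕ) (ω : (S.F k).Ω) (j : Fin M) (a : {a // a ∈ (Φ j).support}) : ℝ := (cv Φ).v k ω ((ix Φ).symm ⟨j, a⟩)

/-- LITERAL POLYNOMIALS with rounded coefficients -/
def lG (k : ℕ) (ω : (S.F k).Ω) (j : Fin M) : MvPolynomial (Fin e) ℝ :=
  ∑ a ∈ (Φ j).support.attach, MvPolynomial.monomial a.1 (rnd (S.dl 1 k) (cu Φ k ω j a))

theorem cu_eq (k : ℕ) (ω : (S.F k).Ω) (j : Fin M) (a : {a // a ∈ (Φ j).support}) :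
    cu Φ k ω j a = TR.ev (QS.rep ((Φ j).coeff a)) k ω := by
  unfold cu cv
  show TR.ev (cf Φ _) k ω = _
  unfold cf
  rw [Equiv.apply_symm_apply]

theorem lG_deg {g : ℕ} (hd : ∀ j, (Φ j).totalDegree ≤ g) (k : ℕ) (ω : (S.F k).Ω) (j : Fin M) :
    (lG Φ k ω j).totalDegree ≤ g := by
  unfold lG
  refine (MvPolynomial.totalDegree_finsetSum _ _).trans (Finset.sup_le fun a _ => ?_)
  refine (MvPolynomial.totalDegree_monomial_le _ _).trans ?_
  exact (MvPolynomial.le_totalDegree a.2).trans (hd j)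

theorem lG_fn (k : ℕ) (ω ω' : (S.F k).Ω) (h : (cv Φ).cellv 1 k ω = (cv Φ).cellv 1 k ω') : lG Φ k ω = lG Φ k ω' := by
  funext j
  unfold lG
  apply Finset.sum_congr rfl
  intro a _
  congr 1
  exact rnd_of_cell h _

theorem lG_coeff (k : ℕ) (ω : (S.F k).Ω) (j : Fin M) (b : Fin e →₀ ℕ) {K : ℝ} (hK : 0 ≤ K)
    (h : ∀ i, |(cv Φ).v k ω i| ≤ K) : |(lG Φ k ω j).coeff b| ≤ K + 1 := by
  classical
  unfold lG
  rw [MvPolynomial.coeff_sum]
  by_cases hb : b ∈ (Φ j).support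
  · rw [Finset.sum_eq_single (⟨b, hb⟩ : {a // a ∈ (Φ j).support})]
    · rw [MvPolynomial.coeff_monomial, if_pos rfl]
      exact (rnd_abs (S.dl_pos 1 k) (dl_one_le S k) _).trans (by
        have := h ((ix Φ).symm ⟨j, ⟨b, hb⟩⟩)
        unfold cu
        linarith)
    · intro a _ hne
      rw [MvPolynomial.coeff_monomial, if_neg]
      intro h1
      exact hne (Subtype.ext h1)
    · intro h1
      exact absurd (Finset.mem_attach _ _) h1
  · rw [Finset.sum_eq_zero]
    · rw [abs_zero]; linarith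
    · intro a _
      rw [MvPolynomial.coeff_monomial, if_neg]
      intro h1
      exact hb (h1 ▸ a.2)

theorem lG_bd : ∃ K : ℕ → ℝ, S.Sub K ∧ ∀ᶠ k in UF, ∀ ω, (S.F k).μ ω ≠ 0 → ∀ j b, |(lG Φ k ω j).coeff b| ≤ K k := by
  obtain ⟨K, hK, hb⟩ := (cv Φ).bd
  refine ⟨fun k => K k + 1, hK.add (S.Sub_const zero_le_one), ?_⟩
  filter_upwards [hb, hK.1] with k h1 h2 ω hω j b
  exact lG_coeff Φ k ω j b h2 (h1 ω hω)

/-- the value of the literal polynomials at a vector -/
def lQ' (y : S.VV e) {g : ℕ} (hd : ∀ j, (Φ j).totalDegree ≤ g) : S.VV M where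
  v := fun k ω j => MvPolynomial.eval (y.v k ω) (lG Φ k ω j)
  bd := by
    obtain ⟨K, hK, hb⟩ := lG_bd Φ
    obtain ⟨L, hL, hY⟩ := y.bd
    refine ⟨fun k => ((g : ℝ) + 1) ^ e * (K k * (L k + 1) ^ g), ?_, ?_⟩
    · have h0 : (0 : ℝ) ≤ ((g : ℝ) + 1) ^ e := by positivity
      exact (S.Sub_const h0).mul (hK.mul (Sub_pow' (hL.add (S.Sub_const zero_le_one)) _))
    · filter_upwards [hb, hY, hK.1, hL.1] with k h1 h2 hK0 hL0 ω hω j
      exact eval_le_of_coeff (lG Φ k ω j) (lG_deg Φ hd k ω j) (K k) (L k + 1) hK0 (by linarith) (h1 ω hω j) _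
        (fun i => (h2 ω hω i).trans (by linarith))

/-- the values of the polynomials and of the literal polynomials agree -/
theorem lQ'_eq (y : Fin e → TR S) {g : ℕ} (hd : ∀ j, (Φ j).totalDegree ≤ g) (j : Fin M) :
    QS.mk (TR.cor (lQ' Φ (TR.vec y) hd) j) = MvPolynomial.eval (fun i => QS.mk (y i)) (Φ j) := by
  classical
  have e1 : MvPolynomial.eval (fun i => QS.mk (y i)) (Φ j) =
      QS.mk (∑ a ∈ (Φ j).support.attach, QS.rep ((Φ j).coeff a) * ∏ i, y i ^ a.1 i) := by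
    rw [MvPolynomial.eval_eq', map_sum, ← Finset.sum_attach]
    apply Finset.sum_congr rfl
    intro a _
    simp only [map_mul, map_prod, map_pow, QS.mk_rep]
  rw [e1, QS.mk_eq]
  obtain ⟨L, hL, hY⟩ := (TR.vec y).bd
  refine ⟨fun _ _ => True, fun k => (Φ j).support.attach.card * (L k + 1) ^ g, Typ_true,
    (S.Sub_const (Nat.cast_nonneg _)).mul (Sub_pow' (hL.add (S.Sub_const zero_le_one)) _), ?_⟩
  filter_upwards [hY, hL.1] with k h1 hL0 ω hω _
  have e2 : TR.ev (TR.cor (lQ' Φ (TR.vec y) hd) j) k ω =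
      ∑ a ∈ (Φ j).support.attach, rnd (S.dl 1 k) (cu Φ k ω j a) * ∏ i, (TR.ev (y i) k ω) ^ a.1 i := by
    show MvPolynomial.eval ((TR.vec y).v k ω) (lG Φ k ω j) = _
    unfold lG
    rw [map_sum]
    apply Finset.sum_congr rfl
    intro a _
    rw [MvPolynomial.eval_monomial, Finsupp.prod_fintype _ _ (fun i => pow_zero _)]
    rfl
  have e3 : TR.ev (∑ a ∈ (Φ j).support.attach, QS.rep ((Φ j).coeff a) * ∏ i, y i ^ a.1 i) k ω =
      ∑ a ∈ (Φ j).support.attach, cu Φ k ω j a * ∏ i, (TR.ev (y i) k ω) ^ a.1 i := by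
    rw [← TR.evh_apply, map_sum]
    apply Finset.sum_congr rfl
    intro a _
    rw [map_mul, map_prod, cu_eq]
    simp only [map_pow, TR.evh_apply]
  rw [e2, e3, ← Finset.sum_sub_distrib]
  refine (Finset.abs_sum_le_sum_abs _ _).trans ?_
  have h2 : ∀ a ∈ (Φ j).support.attach, |rnd (S.dl 1 k) (cu Φ k ω j a) * ∏ i, (TR.ev (y i) k ω) ^ a.1 i -
      cu Φ k ω j a * ∏ i, (TR.ev (y i) k ω) ^ a.1 i| ≤ (L k + 1) ^ g * S.dl 1 k := by
    intro a _
    rw [← sub_mul, abs_mul, mul_comm]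
    apply mul_le_mul
    · rw [Finset.abs_prod]
      calc ∏ i, |(TR.ev (y i) k ω) ^ a.1 i| ≤ ∏ i, (L k + 1) ^ a.1 i := by
            apply Finset.prod_le_prod (fun i _ => abs_nonneg _)
            intro i _
            rw [abs_pow]
            apply pow_le_pow_left₀ (abs_nonneg _)
            have := h1 ω hω i
            exact le_trans this (by linarith)
        _ = (L k + 1) ^ (∑ i, a.1 i) := Finset.prod_pow_eq_pow_sum _ _ _
        _ ≤ (L k + 1) ^ g := by
            apply pow_le_pow_right₀ (by linarith)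
            have h3 : a.1.sum (fun _ n => n) ≤ (Φ j).totalDegree := MvPolynomial.le_totalDegree a.2
            have h4 : a.1.sum (fun _ n => n) = ∑ i, a.1 i := Finsupp.sum_fintype _ _ (fun _ => rfl)
            have := hd j
            omega
    · rw [abs_sub_comm]
      exact rnd_le (S.dl_pos 1 k) _
    · exact abs_nonneg _
    · have : 0 ≤ L k + 1 := by linarith
      positivity
  refine (Finset.sum_le_sum h2).trans ?_
  rw [Finset.sum_const, nsmul_eq_mul, mul_assoc]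

/-- the partition of a polynomial leaf -/
def pI (W : S.L) : S.Inf := Inf.sup (rpo W) ((cv Φ).bdd 1).toInf

theorem cl_pI {W : S.L} (hΦ : ∀ j, Φ j ∈ QS.PK W) : cl (pI Φ W) = W := by
  unfold pI
  rw [cl_sup, cl_rpo]
  have e1 : cl ((cv Φ).bdd 1).toInf = (cv Φ).dg 1 := (io_eq ((cv Φ).bdd 1)).symm
  rw [e1]
  apply sup_eq_left.mpr
  apply TR.vec_dg_le
  intro n
  have h1 := hΦ (ix Φ n).1 (ix Φ n).2
  rw [← QS.mk_rep ((Φ (ix Φ n).1).coeff (ix Φ n).2), QS.dg_mk _ le_rfl] at h1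
  exact h1

end

/-- A POLYNOMIAL LEAF OF THE EXACT CALCULUS IS A LEAF. The leaf is a literal partition with the class `W`, the window
`c` has the class of `W` and the digits of level `c` of `Y`. -/
theorem exists_leaf (Q : S.VV M) (W : S.L) (Y : Fin e → QS S) (Φ : Fin M → MvPolynomial (Fin e) (QS S))
    (hΦ : ∀ j, Φ j ∈ QS.PK W) (hY : QS.Rl Y W) (hQ : ∀ j, QS.mk (TR.cor Q j) = MvPolynomial.eval Y (Φ j)) {g : ℕ}
    (hg : 1 ≤ g) (he : e ≤ g) (hd : ∀ j, (Φ j).totalDegree ≤ g) :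
    ∃ l : Leaf S Q (lin g), l.e = e ∧ (PLe (pof l.La) (rp W) ∧ PLe (rp W) (pof l.La)) ∧
      ∀ c : ℝ, c ≤ 1 → PLe (l.win c) (rp (W ⊔ QS.vd Y c)) ∧ PLe (rp (W ⊔ QS.vd Y c)) (l.win c) := by
  set y : Fin e → TR S := fun i => QS.rep (Y i) with hy
  have hyY : (fun i => QS.mk (y i)) = Y := funext fun i => QS.mk_rep (Y i)
  have hfull : Tendsto (fun k => h (fc (Setoid.ker ((TR.vec y).cellv 1 k))) (fc ((pI Φ W).1 k)) / (S.F k).n) UF
      (𝓝 (e : ℝ)) := by
    have h1 : UB (S.rt ((TR.vec y).bdd 1).toInf.1 (pI Φ W).1) := UB_rt _ _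
    have h2 := ul_tendsto h1
    have h3 : ul (S.rt ((TR.vec y).bdd 1).toInf.1 (pI Φ W).1) = e := by
      rw [← h_cl, cl_pI Φ hΦ]
      have e1 : cl ((TR.vec y).bdd 1).toInf = (TR.vec y).dg 1 := (io_eq ((TR.vec y).bdd 1)).symm
      rw [e1, ← vd_mk y le_rfl, hyY]
      have h4 : h (QS.vd Y 1) W = Fintype.card (Fin e) := hY
      rw [h4, Fintype.card_fin]
    rw [h3] at h2
    refine h2.congr fun k => ?_
    rw [h_fc]
    rfl
  set l0 : Leaf S (lQ' Φ (TR.vec y) hd) (lin g) := Leaf.ofPoly g hg e he (pI Φ W).1 (TR.vec y) (fun k ω => lG Φ k ω)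
    (fun k ω i => lG_deg Φ hd k ω i) (Eventually.of_forall fun k ω ω' _ _ _ r => lG_fn Φ k ω ω' r.2) (lG_bd Φ)
    ⟨fun _ => 0, S.Sub_const le_rfl, Eventually.of_forall fun k ω _ i => by
      show |MvPolynomial.eval _ _ - MvPolynomial.eval _ _| ≤ _
      rw [sub_self, abs_zero, zero_mul]⟩ hfull with hl0
  have hag : ∀ j, TR.Ag 1 (TR.cor Q j) (TR.cor (lQ' Φ (TR.vec y) hd) j) := by
    intro j
    rw [← QS.mk_eq, hQ j, lQ'_eq, hyY]
  choose A K hA hK hh using hag
  have hTy := Typ_all A hA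
  have hE : ∀ D, D ≤ Pool.Agent.Helper84.MT.lin g D := by
    intro D
    unfold Pool.Agent.Helper84.MT.lin
    nlinarith
  have hQ' : ∃ K : ℕ → ℝ, S.Sub K ∧ ∀ᶠ k in UF, ∀ ω, (S.F k).μ ω ≠ 0 → (∀ j, A j k ω) → ∀ i,
      |Q.v k ω i - (lQ' Φ (TR.vec y) hd).v k ω i| ≤ K k * S.dl 1 k := by
    have hS : ∀ s : Finset (Fin M), S.Sub (fun k => ∑ i ∈ s, K i k) := by
      intro s
      induction s using Finset.induction_on with
      | empty => simpa using S.Sub_const le_rfl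
      | insert a s ha ih =>
        have h1 := (hK a).add ih
        simpa [Finset.sum_insert ha] using h1
    refine ⟨fun k => ∑ i, K i k, hS Finset.univ, ?_⟩
    have h1 : ∀ᶠ k in UF, ∀ i ∈ (Finset.univ : Finset (Fin M)), 0 ≤ K i k ∧ ∀ ω, (S.F k).μ ω ≠ 0 → A i k ω →
        |TR.ev (TR.cor Q i) k ω - TR.ev (TR.cor (lQ' Φ (TR.vec y) hd) i) k ω| ≤ K i k * S.dl 1 k := by
      rw [Filter.eventually_all_finset]
      intro i _
      exact (hK i).1.and (hh i)
    filter_upwards [h1] with k hk ω hω hAk i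
    refine ((hk i (Finset.mem_univ i)).2 ω hω (hAk i)).trans ?_
    apply mul_le_mul_of_nonneg_right _ (S.dl_pos 1 k).le
    exact Finset.single_le_sum (f := fun i => K i k) (fun j _ => (hk j (Finset.mem_univ j)).1) (Finset.mem_univ i)
  have hV : S.VB l0.La := (pI Φ W).2
  have hcW : ∀ {X : S.Inf}, PLe (rpI X) (rp (cl X)) ∧ PLe (rp (cl X)) (rpI X) := fun {X} => ⟨(rp_rpI X).2, (rp_rpI X).1⟩
  refine ⟨l0.toQ hTy hE hQ', rfl, ⟨?_, ?_⟩, fun c hc => ?_⟩
  · refine (toQ_La_le l0 hTy hE hQ').trans ?_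
    have h1 := (hcW (X := pI Φ W)).1
    rw [cl_pI Φ hΦ] at h1
    exact h1
  · refine PLe.trans ?_ (toQ_La_ge l0 hTy hE hQ' hV)
    have h1 := (hcW (X := pI Φ W)).2
    rw [cl_pI Φ hΦ] at h1
    exact h1
  · have e1 : cl (Inf.sup (pI Φ W) ((TR.vec y).bdd c).toInf) = W ⊔ QS.vd Y c := by
      rw [cl_sup, cl_pI Φ hΦ]
      have e2 : cl ((TR.vec y).bdd c).toInf = (TR.vec y).dg c := (io_eq ((TR.vec y).bdd c)).symm
      rw [e2, ← vd_mk y hc, hyY]
    have h1 := hcW (X := Inf.sup (pI Φ W) ((TR.vec y).bdd c).toInf)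
    rw [e1] at h1
    exact ⟨(toQ_win_le l0 hTy hE hQ' c).trans h1.1, PLe.trans h1.2 (toQ_win_ge l0 hTy hE hQ' c hV)⟩

end

end Pool.Agent.Helper81.AD
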