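import Pool.Agent.Helper81.AD.Frs
import Pool.Agent.Helper81.AD.Pl

/-! ADAPTER, part 5: the parameter of a leaf between the levels `delta` and `1`, continued by fresh digits; it is real
over the base and the digits of level `delta`. -/

set_option autoImplicit false

namespace Pool.Agent.Helper81.AD

open Finset Filter Topology Matrix Pool.Agent.Helper69.RK Pool.Agent.Helper31.EC Pool.Agent.Helper31.EC.Sp
open Pool.Agent.Helper40.EL Pool.Agent.Helper89.LX Pool.Agent.Helper3.LF Pool.Agent.Helper84.MT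

noncomputable section

variable {S T : Sp} {e : ℕ}

theorem dl_pj (p : Pj T S) (r : ℝ) (k : ℕ) : T.dl r k = S.dl r k := by
  unfold Sp.dl
  rw [p.hn k]

section
variable (p : Pj T S) (Y : S.VV e) (u : T.VV e) (hu : ∀ k w i, 0 ≤ u.v k w i ∧ u.v k w i ≤ 1) (δ : ℝ) (hδ : δ ≤ 1)

/-- the value of the parameter -/
def zval (k : ℕ) (w : (T.F k).Ω) (i : Fin e) : ℝ :=
  (rnd (S.dl 1 k) (Y.v k (p.π k w) i) - rnd (S.dl δ k) (Y.v k (p.π k w) i) + S.dl 1 k * u.v k w i) / (2 * S.dl δ k)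

include hu hδ in
theorem zval_abs (k : ℕ) (w : (T.F k).Ω) (i : Fin e) : |zval p Y u δ k w i| ≤ 1 := by
  have h1 : 0 < S.dl 1 k := S.dl_pos 1 k
  have h2 : 0 < S.dl δ k := S.dl_pos δ k
  have h3 : S.dl 1 k ≤ S.dl δ k := S.dl_anti hδ k
  set x := Y.v k (p.π k w) i with hx
  have fl1 : rnd (S.dl 1 k) x ≤ x := by
    unfold rnd
    have := Int.floor_le (x / S.dl 1 k)
    rw [le_div_iff₀ h1] at this
    linarith
  have fl2 : x - S.dl 1 k ≤ rnd (S.dl 1 k) x := by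
    unfold rnd
    have := (Int.sub_one_lt_floor (x / S.dl 1 k)).le
    rw [sub_le_iff_le_add, div_le_iff₀ h1] at this
    linarith
  have fl3 : rnd (S.dl δ k) x ≤ x := by
    unfold rnd
    have := Int.floor_le (x / S.dl δ k)
    rw [le_div_iff₀ h2] at this
    linarith
  have fl4 : x - S.dl δ k ≤ rnd (S.dl δ k) x := by
    unfold rnd
    have := (Int.sub_one_lt_floor (x / S.dl δ k)).le
    rw [sub_le_iff_le_add, div_le_iff₀ h2] at this
    linarith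
  have hu1 := hu k w i
  have h4 : 0 ≤ S.dl 1 k * u.v k w i := mul_nonneg h1.le hu1.1
  have h5 : S.dl 1 k * u.v k w i ≤ S.dl 1 k := mul_le_of_le_one_right h1.le hu1.2
  unfold zval
  rw [abs_div, abs_of_pos (by positivity : (0 : ℝ) < 2 * S.dl δ k), div_le_one (by positivity), abs_le]
  constructor <;> linarith

include hu in
/-- the point given by the parameter -/
theorem zval_pt (k : ℕ) (w : (T.F k).Ω) (i : Fin e) :
    |rnd (S.dl δ k) (Y.v k (p.π k w) i) + 2 * S.dl δ k * zval p Y u δ k w i - Y.v k (p.π k w) i| ≤ 2 * S.dl 1 k := by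
  have h1 : 0 < S.dl 1 k := S.dl_pos 1 k
  have h2 : 0 < S.dl δ k := S.dl_pos δ k
  have hu1 := hu k w i
  have h3 := rnd_le h1 (Y.v k (p.π k w) i)
  have e1 : rnd (S.dl δ k) (Y.v k (p.π k w) i) + 2 * S.dl δ k * zval p Y u δ k w i - Y.v k (p.π k w) i =
      -(Y.v k (p.π k w) i - rnd (S.dl 1 k) (Y.v k (p.π k w) i)) + S.dl 1 k * u.v k w i := by
    unfold zval
    field_simp
    ring
  rw [e1]
  refine (abs_add_le _ _).trans ?_
  rw [abs_neg, abs_mul, abs_of_pos h1, abs_of_nonneg hu1.1]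
  have h5 : S.dl 1 k * u.v k w i ≤ S.dl 1 k := mul_le_of_le_one_right h1.le hu1.2
  linarith

/-- the parameter -/
def zv : T.VV e where
  v := fun k w i => zval p Y u δ k w i
  bd := ⟨fun _ => 1, T.Sub_const zero_le_one, Eventually.of_forall fun k w _ i => zval_abs p Y u hu δ hδ k w i⟩

/-- the information of the digits of level `δ` of the old parameter and of the new parameter -/
theorem zv_inf : p.map (Y.dg δ) ⊔ (zv p Y u hu δ hδ).dg 1 =
    cl (Inf.sup ((p.vv Y).bdd δ).toInf ((zv p Y u hu δ hδ).bdd 1).toInf) := by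
  rw [p.map_dg, cl_sup]
  congr 1
  · exact io_eq _
  · exact io_eq _

/-- the digits of the old parameter -/
theorem zv_ge_Y (hδ0 : 0 ≤ δ) : p.map (Y.dg 1) ≤ p.map (Y.dg δ) ⊔ (zv p Y u hu δ hδ).dg 1 := by
  rw [zv_inf, p.map_dg]
  apply VV.dg_le_cl _ _ _ (fun _ _ => True) Typ_true (fun _ => 6) (T.Sub_const (by norm_num))
  refine Eventually.of_forall fun k w w' _ _ _ _ _ hr i => ?_
  have hd1 : 0 < S.dl 1 k := S.dl_pos 1 k
  have hdδ : 0 < S.dl δ k := S.dl_pos δ k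
  have r1 : (p.vv Y).cellv δ k w = (p.vv Y).cellv δ k w' := hr.1
  have r2 : (zv p Y u hu δ hδ).cellv 1 k w = (zv p Y u hu δ hδ).cellv 1 k w' := hr.2
  have h1 : rnd (S.dl δ k) (Y.v k (p.π k w) i) = rnd (S.dl δ k) (Y.v k (p.π k w') i) := by
    have := rnd_of_cell r1 i
    rw [dl_pj p] at this
    exact this
  have h2 : |zval p Y u δ k w i - zval p Y u δ k w' i| ≤ S.dl 1 k := by
    have h3 := VV.cellv_close _ _ _ _ _ r2 i
    rw [dl_pj p] at h3
    exact h3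
  rw [dl_pj p]
  show |Y.v k (p.π k w) i - Y.v k (p.π k w') i| ≤ 6 * S.dl 1 k
  have h4 := zval_pt p Y u hu δ k w i
  have h5 := zval_pt p Y u hu δ k w' i
  rw [h1] at h4
  have h6 : S.dl δ k ≤ 1 := by
    rw [← S.dl_zero k]
    exact S.dl_anti hδ0 k
  have h7 : |2 * S.dl δ k * (zval p Y u δ k w i - zval p Y u δ k w' i)| ≤ 2 * S.dl 1 k := by
    rw [abs_mul, abs_of_pos (by positivity : (0 : ℝ) < 2 * S.dl δ k)]
    exact mul_le_mul (by linarith) h2 (abs_nonneg _) (by norm_num)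
  rw [mul_sub] at h7
  rw [abs_le] at h4 h5 h7 ⊢
  constructor <;> linarith [h4.1, h4.2, h5.1, h5.2, h7.1, h7.2]

/-- the digits of the fresh variables -/
theorem zv_ge_u : u.dg δ ≤ p.map (Y.dg 1) ⊔ (p.map (Y.dg δ) ⊔ (zv p Y u hu δ hδ).dg 1) := by
  have e1 : p.map (Y.dg 1) ⊔ (p.map (Y.dg δ) ⊔ (zv p Y u hu δ hδ).dg 1) =
      cl (Inf.sup ((p.vv Y).bdd 1).toInf (Inf.sup ((p.vv Y).bdd δ).toInf ((zv p Y u hu δ hδ).bdd 1).toInf)) := by
    rw [zv_inf, cl_sup ((p.vv Y).bdd 1).toInf, p.map_dg]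
    congr 1
    exact io_eq _
  rw [e1]
  apply VV.dg_le_cl _ _ _ (fun _ _ => True) Typ_true (fun _ => 2) (T.Sub_const (by norm_num))
  refine Eventually.of_forall fun k w w' _ _ _ _ _ hr i => ?_
  have hd1 : 0 < S.dl 1 k := S.dl_pos 1 k
  have hdδ : 0 < S.dl δ k := S.dl_pos δ k
  have r0 : (p.vv Y).cellv 1 k w = (p.vv Y).cellv 1 k w' := hr.1
  have r1 : (p.vv Y).cellv δ k w = (p.vv Y).cellv δ k w' := hr.2.1
  have r2 : (zv p Y u hu δ hδ).cellv 1 k w = (zv p Y u hu δ hδ).cellv 1 k w' := hr.2.2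
  have h0 : rnd (S.dl 1 k) (Y.v k (p.π k w) i) = rnd (S.dl 1 k) (Y.v k (p.π k w') i) := by
    have := rnd_of_cell r0 i
    rw [dl_pj p] at this
    exact this
  have h1 : rnd (S.dl δ k) (Y.v k (p.π k w) i) = rnd (S.dl δ k) (Y.v k (p.π k w') i) := by
    have := rnd_of_cell r1 i
    rw [dl_pj p] at this
    exact this
  have h2 : |zval p Y u δ k w i - zval p Y u δ k w' i| ≤ S.dl 1 k := by
    have h3 := VV.cellv_close _ _ _ _ _ r2 i
    rw [dl_pj p] at h3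
    exact h3
  rw [dl_pj p]
  have e2 : zval p Y u δ k w i - zval p Y u δ k w' i = S.dl 1 k * (u.v k w i - u.v k w' i) / (2 * S.dl δ k) := by
    unfold zval
    rw [h0, h1]
    ring
  rw [e2, abs_div, abs_mul, abs_of_pos hd1, abs_of_pos (by positivity : (0 : ℝ) < 2 * S.dl δ k),
    div_le_iff₀ (by positivity)] at h2
  show |u.v k w i - u.v k w' i| ≤ 2 * S.dl δ k
  exact le_of_mul_le_mul_left h2 hd1

/-- THE NEW PARAMETER IS REAL -/
theorem zv_real (hδ0 : 0 ≤ δ) (W : S.L) (hY : h (Y.dg 1) W = e) (hu1 : ∀ y : S.L, h (u.dg 1) (p.map y) = e) :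
    (e : ℝ) ≤ h ((zv p Y u hu δ hδ).dg 1) (p.map (W ⊔ Y.dg δ)) := by
  set z := (zv p Y u hu δ hδ).dg 1 with hz
  have h1 : h (p.map (Y.dg 1) ⊔ u.dg δ) (p.map W) ≤ h (p.map (Y.dg δ) ⊔ z) (p.map W) := by
    apply h_mono
    have h2 := zv_ge_Y p Y u hu δ hδ hδ0
    exact _root_.sup_le h2 ((zv_ge_u p Y u hu δ hδ).trans (_root_.sup_le h2 le_rfl))
  rw [h_chain, h_chain, p.h_map, p.h_map, ← p.map_sup, ← p.map_sup, hY] at h1
  have h3 : h (Y.dg δ) W ≤ e * δ := (h_le_H _ _).trans (Y.H_dg_le hδ0)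
  have h4 : h (u.dg 1) (p.map (W ⊔ Y.dg 1)) ≤ h (u.dg δ) (p.map (W ⊔ Y.dg 1)) + e * (1 - δ) := by
    have h5 : h (u.dg 1) (p.map (W ⊔ Y.dg 1)) ≤ h (u.dg δ ⊔ u.dg 1) (p.map (W ⊔ Y.dg 1)) := h_mono _root_.le_sup_right
    rw [h_chain] at h5
    have h6 : h (u.dg 1) (u.dg δ ⊔ p.map (W ⊔ Y.dg 1)) ≤ h (u.dg 1) (u.dg δ) := h_anti _root_.le_sup_left
    have h7 := u.h_dg_dg hδ
    linarith
  rw [hu1] at h4
  have e1 : W ⊔ Y.dg δ = Y.dg δ ⊔ W := sup_comm _ _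
  have e2 : W ⊔ Y.dg 1 = Y.dg 1 ⊔ W := sup_comm _ _
  rw [e1]
  rw [e2] at h4
  linarith

end

end

end Pool.Agent.Helper81.AD
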