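import Pool.Agent.Helper81.AD.Lf
import Pool.Agent.Helper81.AD.Par
import Pool.Agent.Helper81.AD.Lft
import Pool.Agent.Helper95.RIG.Leaf

/-! ADAPTER, part 7: leaves of the multi-type layer are approximate leaves of the exact calculus, and polynomial
leaves of the exact calculus are leaves of the multi-type layer. -/

set_option autoImplicit false

namespace Pool.Agent.Helper81.AD

open Finset Filter Topology Matrix Pool.Agent.Helper69.RK Pool.Agent.Helper31.EC Pool.Agent.Helper31.EC.Sp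
open Pool.Agent.Helper40.EL Pool.Agent.Helper89.LX Pool.Agent.Helper3.LF Pool.Agent.Helper84.MT
open Pool.Agent.Helper95.RIG

noncomputable section

variable {S T : Sp} {M : ℕ} {E : ℕ → ℕ}

/-- the parameter of a leaf is real over the class of the base -/
theorem leaf_full {Q : S.VV M} (l : Leaf S Q E) (W : S.L) (h1 : PLe (pof l.La) (rp W)) (h2 : PLe (rp W) (pof l.La)) :
    h (l.Y.dg 1) W = l.e := by
  have e1 : l.Y.dg 1 = cl (l.Y.bdd 1).toInf := io_eq _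
  have h3 : hr (rpI (l.Y.bdd 1).toInf) (pof l.La) = l.e := ul_eq l.full
  have hB := rpI_Bd (l.Y.bdd 1).toInf
  have h4 : hr (rpI (l.Y.bdd 1).toInf) (rp W) = l.e := by
    apply le_antisymm
    · rw [← h3]
      exact hr_anti hB h1
    · rw [← h3]
      exact hr_anti hB h2
  have h5 : hr (rp (l.Y.dg 1)) (rp W) = hr (rpI (l.Y.bdd 1).toInf) (rp W) := by
    rw [e1]
    exact le_antisymm (hr_mono (rp_Bd _) hB (rp_rpI _).1) (hr_mono hB (rp_Bd _) (rp_rpI _).2)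
  rw [← hr_rp, h5, h4]

/-- LEAVES ARE APPROXIMATE LEAVES, one precision -/
theorem leaf_approx {Q : S.VV M} (l : Leaf S Q E) (W : S.L) (h1 : PLe (pof l.La) (rp W))
    (h2 : PLe (rp W) (pof l.La)) {δ : ℝ} (hδ : 0 < δ) (hδ1 : δ ≤ 1) :
    ∃ (T : Sp) (p : Pj T S), PLeaf (p.map (W ⊔ l.Y.dg δ)) (fun j => p.qs (QS.mk (TR.cor Q j))) := by
  obtain ⟨r, hr⟩ := exists_nat_ge (1 / δ)
  have hr' : 1 ≤ δ * r := by
    rw [div_le_iff₀ hδ] at hr
    linarith
  obtain ⟨T, p, u, hu, hfr⟩ := exists_fresh S l.e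
  obtain ⟨K, hK, hmain⟩ := tP_main l hδ hr'
  have hA : PLe (fun k => fc (l.La k ⊓ Setoid.ker (l.Y.cellv δ k))) (rp (W ⊔ l.Y.dg δ)) := by
    have e1 : (fun k => (fc (l.La k ⊓ Setoid.ker (l.Y.cellv δ k)) : FL (S.F k))) =
        fun k => pof l.La k ⊔ rpI (l.Y.bdd δ).toInf k := funext fun k => fc_inf _ _
    rw [e1]
    refine PLe.trans ?_ (rp_sup W (l.Y.dg δ)).2
    apply PLe.sup_le
    · exact h1.trans (PLe_of_le fun k => le_sup_left)
    · have e2 : l.Y.dg δ = cl (l.Y.bdd δ).toInf := io_eq _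
      rw [e2]
      exact (rp_rpI _).2.trans (PLe_of_le fun k => le_sup_right)
  have hlift := fun j => lift_poly (fun k ω => tP l δ r k ω j) (l.e * r) (fun k ω => tP_deg l δ r k ω j)
    ⟨K, hK, hmain.mono fun k hk ω hω => (hk ω hω j).1⟩ (fun k => l.La k ⊓ Setoid.ker (l.Y.cellv δ k))
    ((tP_fn l δ r).mono fun k hk ω ω' a b z s => congrFun (hk ω ω' a b z s) j) (W ⊔ l.Y.dg δ) hA
  choose Φ hΦ hΦd hΦe using hlift
  refine ⟨T, p, l.e, fun i => QS.mk (TR.cor (zv p l.Y u hu δ hδ1) i), fun j => MvPolynomial.map p.qs (Φ j), ?_,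
    fun j => QS.map_PK p (hΦ j), fun j => ?_⟩
  · apply QS.Rl.of_ge
    rw [vd_mk _ le_rfl, TR.vec_cor, Fintype.card_fin]
    exact zv_real p l.Y u hu δ hδ1 hδ.le W (leaf_full l W h1 h2) hfr
  · apply hΦe j p (fun i => TR.cor (zv p l.Y u hu δ hδ1) i)
    refine ⟨K, p.sub hK, ?_⟩
    filter_upwards [hmain] with k hk w hw
    have h3 := (hk (p.π k w) (p.supp k w hw) j).2 (fun i => zval p l.Y u δ k w i)
      (fun i => zval_abs p l.Y u hu δ hδ1 k w i) (fun i => zval_pt p l.Y u hu δ k w i)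
    rw [dl_pj p]
    exact h3

/-- ADAPTER (B): A LEAF OF THE MULTI-TYPE LAYER IS AN APPROXIMATE LEAF OF THE EXACT CALCULUS -/
theorem leaf_ALeaf {Q : S.VV M} (l : Leaf S Q E) (W : S.L) (h1 : PLe (pof l.La) (rp W))
    (h2 : PLe (rp W) (pof l.La)) : ALeaf W (fun j => QS.mk (TR.cor Q j)) := by
  apply ALeaf.mk'
  intro ε hε
  set δ : ℝ := min 1 (ε / (l.e + 1)) with hδd
  have he0 : (0 : ℝ) < l.e + 1 := by positivity
  have hδ : 0 < δ := lt_min one_pos (by positivity)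
  have hδ1 : δ ≤ 1 := min_le_left _ _
  have hδe : l.e * δ ≤ ε := by
    have h3 : δ ≤ ε / (l.e + 1) := min_le_right _ _
    rw [le_div_iff₀ he0] at h3
    nlinarith
  obtain ⟨T, p, hp⟩ := leaf_approx l W h1 h2 hδ hδ1
  refine ⟨T, p, p.map (W ⊔ l.Y.dg δ), p.map_mono _root_.le_sup_left, ?_, hp⟩
  rw [p.I_map]
  refine (I_le_h_left _ _ _).trans ?_
  have e1 : W ⊔ l.Y.dg δ = l.Y.dg δ ⊔ W := sup_comm _ _
  rw [e1, h_chain, sup_comm (l.Y.dg δ) W, h_zero (_root_.le_sup_left : W ≤ W ⊔ l.Y.dg δ), add_zero]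
  exact ((h_le_H _ _).trans (l.Y.H_dg_le hδ.le)).trans hδe

/-- ADAPTER (A): A POLYNOMIAL LEAF OF THE EXACT CALCULUS IS A LEAF OF THE MULTI-TYPE LAYER, for all large degrees -/
theorem leaf_of_PLeaf {Q : S.VV M} {W : S.L} (hl : PLeaf W (fun j => QS.mk (TR.cor Q j))) :
    ∃ (g0 e : ℕ) (Y : Fin e → QS S), QS.Rl Y W ∧ ∀ g, g0 ≤ g → ∃ l : Leaf S Q (lin g), l.e = e ∧
      (PLe (pof l.La) (rp W) ∧ PLe (rp W) (pof l.La)) ∧
      ∀ c : ℝ, c ≤ 1 → PLe (l.win c) (rp (W ⊔ QS.vd Y c)) ∧ PLe (rp (W ⊔ QS.vd Y c)) (l.win c) := by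
  obtain ⟨e, Y, Φ, hY, hΦ, hQ⟩ := hl
  refine ⟨max 1 (max e (Finset.univ.sup fun j => (Φ j).totalDegree)), e, Y, hY, fun g hg => ?_⟩
  have h1 : 1 ≤ g := (le_max_left _ _).trans hg
  have h2 : e ≤ g := ((le_max_left _ _).trans (le_max_right _ _)).trans hg
  have h3 : ∀ j, (Φ j).totalDegree ≤ g := fun j =>
    ((Finset.le_sup (f := fun j => (Φ j).totalDegree) (Finset.mem_univ j)).trans
      ((le_max_right _ _).trans (le_max_right _ _))).trans hg
  exact exists_leaf Q W Y Φ hΦ hY hQ h1 h2 h3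

end

end Pool.Agent.Helper81.AD
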