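import Pool.Agent.Helper81.AD.Tay
import Pool.Agent.Helper84.MT.Leaf0

/-! ADAPTER, part 3: all iterated partial derivatives of the functions of the algebra of a leaf are bounded by the
function (Bernstein and Remez); Taylor expansion of the chart. -/

set_option autoImplicit false

namespace Pool.Agent.Helper81.AD

open Finset Filter Topology Matrix Pool.Agent.Helper69.RK Pool.Agent.Helper31.EC Pool.Agent.Helper31.EC.Sp
open Pool.Agent.Helper40.EL Pool.Agent.Helper89.LX Pool.Agent.Helper3.LF Pool.Agent.Helper84.MT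

noncomputable section

variable {S : Sp} {M : ℕ} {E : ℕ → ℕ}

/-- partial derivatives of the functions of the algebra -/
theorem der_bd {Q : S.VV M} (l : Leaf S Q E) (D : ℕ) : ∃ K : ℕ → ℝ, S.Sub K ∧ ∀ᶠ k in UF, ∀ ω,
    (S.F k).μ ω ≠ 0 → ∀ f ∈ l.al k ω D, ∀ A : ℝ, (∀ y : Fin l.e → ℝ, (∀ i, |y i - l.Y.v k ω i| ≤ 1) → |f y| ≤ A) →
      ∀ i, ∃ g ∈ l.al k ω (D + 1), (∀ y ∈ oc (l.Y.v k ω) 1, HasDerivAt (fun t => f (Function.update y i t)) (g y) (y i)) ∧
        ∀ y : Fin l.e → ℝ, (∀ i, |y i - l.Y.v k ω i| ≤ 1) → |g y| ≤ K k * A := by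
  obtain ⟨K, hK, hb⟩ := l.bern D
  obtain ⟨L, hL, hs⟩ := l.seg (D + 1)
  set N := E (D + 1) with hN
  refine ⟨fun k => L k * ((N : ℝ) + 1) ^ N * K k, (hL.mul (S.Sub_const (by positivity))).mul hK, ?_⟩
  filter_upwards [hb, hs, l.alg, hK.1, hL.1] with k h1 h2 h3 hK0 hL0 ω hω f hf A hA i
  have hA0 : 0 ≤ A := (abs_nonneg _).trans (hA (l.Y.v k ω) fun i => by rw [sub_self, abs_zero]; exact zero_le_one)
  obtain ⟨g, hg, hgd⟩ := (h3 ω hω).der D f hf i
  refine ⟨g, hg, fun y hy => hgd y hy, ?_⟩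
  have hop : ∀ y ∈ oc (l.Y.v k ω) 1, |g y| ≤ K k * A := by
    intro y hy
    have h4 := hgd y hy
    have h5 := h4.le_of_lip' (C := K k * A) (by positivity) (by
      have h6 : ∀ᶠ t in 𝓝 (y i), |t - l.Y.v k ω i| < 1 := by
        have h7 : Continuous fun t : ℝ => |t - l.Y.v k ω i| := by fun_prop
        exact h7.continuousAt.eventually_lt continuousAt_const (hy i)
      filter_upwards [h6] with t ht
      rw [Function.update_eq_self, Real.norm_eq_abs, Real.norm_eq_abs]
      have h8 := h1 ω hω f hf A hA (Function.update y i t) y (fun j => (oc_update hy i ht j).le) (fun j => (hy j).le)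
      have h9 : ∑ j, |Function.update y i t j - y j| = |t - y i| := by
        rw [Finset.sum_eq_single i]
        · rw [Function.update_self]
        · intro j _ hj
          rw [Function.update_of_ne hj, sub_self, abs_zero]
        · intro h
          exact absurd (Finset.mem_univ _) h
      rw [h9] at h8
      exact h8)
    rwa [Real.norm_eq_abs] at h5
  intro y hy
  have h4 := (h2 ω hω g hg (l.Y.v k ω) y (fun j => by rw [sub_self, abs_zero]; exact zero_le_one) hy).1
  have hN0 : (0 : ℝ) < (N : ℝ) + 1 := by positivity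
  have h5 := h4 (fun j => (j : ℕ) / ((N : ℝ) + 1)) (1 / ((N : ℝ) + 1)) (K k * A) (by positivity) (fun j => by
      have : ((j : ℕ) : ℝ) ≤ (N : ℝ) + 1 := by
        have := j.2.le
        exact_mod_cast this
      constructor
      · positivity
      · rw [div_le_one hN0]
        exact this) (fun a b hab => by
      rw [← sub_div, abs_div, abs_of_pos hN0]
      apply div_le_div_of_nonneg_right _ hN0.le
      have h6 : (a : ℕ) ≠ (b : ℕ) := fun h => hab (Fin.ext h)
      have h7 : (1 : ℤ) ≤ |((a : ℕ) : ℤ) - ((b : ℕ) : ℤ)| := by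
        apply Int.one_le_abs
        intro h
        apply h6
        omega
      exact_mod_cast h7) (fun j => by
      apply hop
      intro a
      have h6 : l.Y.v k ω a + (j : ℕ) / ((N : ℝ) + 1) * (y a - l.Y.v k ω a) - l.Y.v k ω a =
          (j : ℕ) / ((N : ℝ) + 1) * (y a - l.Y.v k ω a) := by ring
      rw [h6, abs_mul, abs_of_nonneg (by positivity)]
      have h7 : ((j : ℕ) : ℝ) / ((N : ℝ) + 1) < 1 := by
        rw [div_lt_one hN0]
        have := j.2
        exact_mod_cast this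
      have h8 := hy a
      have h9 : 0 ≤ ((j : ℕ) : ℝ) / ((N : ℝ) + 1) := by positivity
      nlinarith [abs_nonneg (y a - l.Y.v k ω a)]) 1 ⟨zero_le_one, le_rfl⟩
  have e1 : (fun j => l.Y.v k ω j + 1 * (y j - l.Y.v k ω j)) = y := by
    funext j
    ring
  have h5' : |g (fun j => l.Y.v k ω j + 1 * (y j - l.Y.v k ω j))| ≤ L k * (1 / (1 / ((N : ℝ) + 1))) ^ N * (K k * A) := h5
  rw [e1, one_div_one_div] at h5'
  refine h5'.trans (le_of_eq ?_)
  ring

/-- iterated partial derivatives of the functions of the algebra -/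
theorem leaf_Sm {Q : S.VV M} (l : Leaf S Q E) (r : ℕ) : ∀ D : ℕ, ∃ K : ℕ → ℝ, S.Sub K ∧ ∀ᶠ k in UF, ∀ ω,
    (S.F k).μ ω ≠ 0 → ∀ f ∈ l.al k ω D, ∀ A : ℝ, (∀ y : Fin l.e → ℝ, (∀ i, |y i - l.Y.v k ω i| ≤ 1) → |f y| ≤ A) →
      Sm (l.Y.v k ω) 1 (K k * A) r f := by
  induction r with
  | zero =>
    intro D
    refine ⟨fun _ => 1, S.Sub_const zero_le_one, Eventually.of_forall fun k ω _ f _ A hA y hy => ?_⟩
    rw [one_mul]
    exact hA y fun i => (hy i).le
  | succ r ih =>
    intro D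
    obtain ⟨K, hK, hb⟩ := der_bd l D
    obtain ⟨L, hL, hi⟩ := ih (D + 1)
    refine ⟨fun k => 1 + L k * K k, (S.Sub_const zero_le_one).add (hL.mul hK), ?_⟩
    filter_upwards [hb, hi, hK.1, hL.1] with k h1 h2 hK0 hL0 ω hω f hf A hA
    have hA0 : 0 ≤ A := (abs_nonneg _).trans (hA (l.Y.v k ω) fun i => by rw [sub_self, abs_zero]; exact zero_le_one)
    have hLK : 0 ≤ L k * K k * A := by positivity
    refine ⟨fun y hy => (hA y fun i => (hy i).le).trans (by nlinarith), fun i => ?_⟩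
    obtain ⟨g, hg, hgd, hgb⟩ := h1 ω hω f hf A hA i
    have h3 := h2 ω hω g hg (K k * A) hgb
    have h4 : ∀ y ∈ oc (l.Y.v k ω) 1, g y = pd i f y := fun y hy => (hgd y hy).deriv.symm
    refine ⟨fun y hy => ?_, (h3.congr h4).mono (by nlinarith)⟩
    rw [← h4 y hy]
    exact hgd y hy

/-- iterated partial derivatives of the chart -/
theorem chart_Sm {Q : S.VV M} (l : Leaf S Q E) (r : ℕ) : ∃ K : ℕ → ℝ, S.Sub K ∧ ∀ᶠ k in UF, ∀ ω,
    (S.F k).μ ω ≠ 0 → ∀ j, Sm (l.Y.v k ω) 1 (K k) r (fun y => l.F k ω y j) := by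
  obtain ⟨K, hK, hb⟩ := leaf_Sm l r 1
  obtain ⟨L, hL, hb'⟩ := l.bd
  refine ⟨fun k => K k * L k, hK.mul hL, ?_⟩
  filter_upwards [hb, hb', l.crF] with k h1 h2 h3 ω hω j
  exact h1 ω hω _ (h3 ω hω j) (L k) fun y hy => h2 ω hω y hy j

end

end Pool.Agent.Helper81.AD
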