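import Pool.Agent.Helper81.AD.Der
import Pool.Agent.Helper81.AD.Pl

/-! ADAPTER, part 4: the Taylor polynomials of the chart of a leaf at the rounded parameter. -/

set_option autoImplicit false

namespace Pool.Agent.Helper81.AD

open Finset Filter Topology Matrix Pool.Agent.Helper69.RK Pool.Agent.Helper31.EC Pool.Agent.Helper31.EC.Sp
open Pool.Agent.Helper40.EL Pool.Agent.Helper89.LX Pool.Agent.Helper3.LF Pool.Agent.Helper84.MT

noncomputable section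

variable {S : Sp} {M : ℕ} {E : ℕ → ℕ} {Q : S.VV M} (l : Leaf S Q E) (δ : ℝ) (r : ℕ)

/-- the rounded parameter -/
def y0 (k : ℕ) (ω : (S.F k).Ω) : Fin l.e → ℝ := fun i => rnd (S.dl δ k) (l.Y.v k ω i)

/-- the Taylor polynomials at the rounded parameter -/
def tP (k : ℕ) (ω : (S.F k).Ω) (j : Fin M) : MvPolynomial (Fin l.e) ℝ :=
  TP (2 * S.dl δ k) (y0 l δ k ω) r (List.finRange l.e) (fun y => l.F k ω y j)

theorem tP_deg (k : ℕ) (ω : (S.F k).Ω) (j : Fin M) : (tP l δ r k ω j).totalDegree ≤ l.e * r := by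
  have h1 := TP_deg (2 * S.dl δ k) (y0 l δ k ω) r (List.finRange l.e) (fun y => l.F k ω y j)
  rwa [List.length_finRange] at h1

theorem tP_fn : ∀ᶠ k in UF, ∀ ω ω', (S.F k).μ ω ≠ 0 → (S.F k).μ ω' ≠ 0 → (S.F k).Z ω ω' →
    (l.La k ⊓ Setoid.ker (l.Y.cellv δ k)) ω ω' → tP l δ r k ω = tP l δ r k ω' := by
  filter_upwards [l.fn] with k hk ω ω' a b z hr
  have h1 := hk ω ω' a b z hr.1
  have h2 : y0 l δ k ω = y0 l δ k ω' := by
    funext i
    exact rnd_of_cell hr.2 i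
  funext j
  unfold tP
  rw [h1, h2]

theorem dl_small {δ : ℝ} (hδ : 0 < δ) : ∀ᶠ k in UF, S.dl δ k ≤ 1 / 4 := by
  have h1 := S.lim.eventually (eventually_ge_atTop (2 / δ))
  filter_upwards [h1] with k hk
  unfold Sp.dl
  have h2 : -(δ * (S.F k).n) ≤ -2 := by
    have h3 : 2 ≤ δ * (S.F k).n := by
      rw [div_le_iff₀ hδ] at hk
      linarith
    linarith
  refine (Real.rpow_le_rpow_of_exponent_le (by norm_num) h2).trans ?_
  rw [show (-2 : ℝ) = ((-2 : ℤ) : ℝ) by norm_num, Real.rpow_intCast]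
  norm_num

theorem dl_pow (δ : ℝ) (r : ℕ) (k : ℕ) : S.dl δ k ^ r = S.dl (δ * r) k := by
  unfold Sp.dl
  rw [← Real.rpow_natCast, ← Real.rpow_mul (by norm_num)]
  congr 1
  ring

/-- THE TAYLOR POLYNOMIALS: tame coefficients, the point is the value at every parameter which agrees to precision
`2^(-n)` -/
theorem tP_main {δ : ℝ} (hδ : 0 < δ) {r : ℕ} (hr : 1 ≤ δ * r) : ∃ K : ℕ → ℝ, S.Sub K ∧
    ∀ᶠ k in UF, ∀ ω, (S.F k).μ ω ≠ 0 → ∀ j, (∀ a, |(tP l δ r k ω j).coeff a| ≤ K k) ∧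
      ∀ z : Fin l.e → ℝ, (∀ i, |z i| ≤ 1) →
        (∀ i, |y0 l δ k ω i + 2 * S.dl δ k * z i - l.Y.v k ω i| ≤ 2 * S.dl 1 k) →
        |Q.v k ω j - MvPolynomial.eval z (tP l δ r k ω j)| ≤ K k * S.dl 1 k := by
  obtain ⟨K, hK, hs⟩ := chart_Sm l (l.e * r)
  obtain ⟨L, hL, hlip⟩ := l.lip
  obtain ⟨C, hC, hpt⟩ := l.pt
  have hr0 : (0 : ℝ) < r := by
    by_contra h
    have h1 : (r : ℝ) ≤ 0 := not_lt.mp h
    nlinarith
  set c1 : ℝ := (r + 1 : ℝ) ^ l.e with hc1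
  have hc10 : 0 ≤ c1 := by positivity
  set c2 : ℝ := (r + 1 : ℝ) ^ l.e * l.e * 2 ^ r with hc2
  have hc20 : 0 ≤ c2 := by positivity
  refine ⟨fun k => K k * c1 + (C k + L k * (l.e * 2) + K k * c2), ?_, ?_⟩
  · have h1 := (hK.mul (S.Sub_const hc10)).add ((hC.add (hL.mul (S.Sub_const (show (0 : ℝ) ≤ l.e * 2 by positivity)))).add
      (hK.mul (S.Sub_const hc20)))
    exact h1
  filter_upwards [hs, hlip, hpt, hK.1, hL.1, hC.1, dl_small (S := S) hδ, dl_small (S := S) zero_lt_one] with k hsk hlk hpk hK0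
    hL0 hC0 hd hd1 ω hω j
  have hδp : 0 < S.dl δ k := S.dl_pos δ k
  have h1p : 0 < S.dl 1 k := S.dl_pos 1 k
  have hη : 0 ≤ 2 * S.dl δ k := by positivity
  have hη1 : 2 * S.dl δ k ≤ 1 := by linarith
  have hy0 : ∀ i, |y0 l δ k ω i - l.Y.v k ω i| ≤ S.dl δ k := by
    intro i
    rw [abs_sub_comm]
    exact rnd_le hδp _
  have hyo : y0 l δ k ω ∈ oc (l.Y.v k ω) 1 := fun i => lt_of_le_of_lt (hy0 i) (by linarith)
  have hcf : ∀ a, |(tP l δ r k ω j).coeff a| ≤ K k * c1 := by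
    intro a
    have h1 := TP_coeff hK0 hη hη1 (y0 l δ k ω) hyo r (List.finRange l.e) (fun y => l.F k ω y j) (by
      rw [List.length_finRange]
      exact hsk ω hω j) a
    rw [List.length_finRange] at h1
    exact h1
  refine ⟨fun a => (hcf a).trans ?_, fun z hz hzy => ?_⟩
  · have : 0 ≤ C k + L k * (l.e * 2) + K k * c2 := by positivity
    linarith
  · have hyz : (fun i => y0 l δ k ω i + 2 * S.dl δ k * z i) ∈ oc (l.Y.v k ω) 1 := fun i =>
      lt_of_le_of_lt (hzy i) (by linarith)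
    have h1 := taylor_all hK0 hη hη1 (y0 l δ k ω) z hz r hyo hyz (fun y => l.F k ω y j) (hsk ω hω j)
    have h2 := hlk ω hω (l.Y.v k ω) (fun i => y0 l δ k ω i + 2 * S.dl δ k * z i)
      (fun i => by rw [sub_self, abs_zero]; exact zero_le_one) (fun i => (hyz i).le) j
    have h3 := hpk ω hω j
    have h4 : ∑ i, |l.Y.v k ω i - (y0 l δ k ω i + 2 * S.dl δ k * z i)| ≤ l.e * (2 * S.dl 1 k) := by
      refine (Finset.sum_le_sum fun i _ => (by rw [abs_sub_comm]; exact hzy i :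
        |l.Y.v k ω i - (y0 l δ k ω i + 2 * S.dl δ k * z i)| ≤ 2 * S.dl 1 k)).trans ?_
      rw [Finset.sum_const, Finset.card_univ, Fintype.card_fin, nsmul_eq_mul]
    have h5 : (2 * S.dl δ k) ^ r ≤ 2 ^ r * S.dl 1 k := by
      rw [mul_pow, dl_pow]
      exact mul_le_mul_of_nonneg_left (S.dl_anti hr k) (by positivity)
    have h6 : L k * ∑ i, |l.Y.v k ω i - (y0 l δ k ω i + 2 * S.dl δ k * z i)| ≤ L k * (l.e * (2 * S.dl 1 k)) :=
      mul_le_mul_of_nonneg_left h4 hL0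
    have h7 : K k * ((r + 1 : ℝ) ^ l.e * l.e) * (2 * S.dl δ k) ^ r ≤
        K k * ((r + 1 : ℝ) ^ l.e * l.e) * (2 ^ r * S.dl 1 k) :=
      mul_le_mul_of_nonneg_left h5 (by positivity)
    have e1 : Q.v k ω j - MvPolynomial.eval z (tP l δ r k ω j) =
        (Q.v k ω j - l.F k ω (l.Y.v k ω) j) +
        (l.F k ω (l.Y.v k ω) j - l.F k ω (fun i => y0 l δ k ω i + 2 * S.dl δ k * z i) j) +
        (l.F k ω (fun i => y0 l δ k ω i + 2 * S.dl δ k * z i) j - MvPolynomial.eval z (tP l δ r k ω j)) := by ring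
    rw [e1]
    have h8 : |l.F k ω (fun i => y0 l δ k ω i + 2 * S.dl δ k * z i) j - MvPolynomial.eval z (tP l δ r k ω j)| ≤
        K k * ((r + 1 : ℝ) ^ l.e * l.e) * (2 * S.dl δ k) ^ r := h1
    have h9 := abs_add_le ((Q.v k ω j - l.F k ω (l.Y.v k ω) j) +
        (l.F k ω (l.Y.v k ω) j - l.F k ω (fun i => y0 l δ k ω i + 2 * S.dl δ k * z i) j))
        (l.F k ω (fun i => y0 l δ k ω i + 2 * S.dl δ k * z i) j - MvPolynomial.eval z (tP l δ r k ω j))
    have h10 := abs_add_le (Q.v k ω j - l.F k ω (l.Y.v k ω) j)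
        (l.F k ω (l.Y.v k ω) j - l.F k ω (fun i => y0 l δ k ω i + 2 * S.dl δ k * z i) j)
    have h11 : 0 ≤ K k * c1 * S.dl 1 k := by positivity
    have e2 : (K k * c1 + (C k + L k * (l.e * 2) + K k * c2)) * S.dl 1 k = K k * c1 * S.dl 1 k + C k * S.dl 1 k +
        L k * (l.e * (2 * S.dl 1 k)) + K k * ((r + 1 : ℝ) ^ l.e * l.e) * (2 ^ r * S.dl 1 k) := by
      rw [hc2]
      ring
    rw [e2]
    linarith

end

end Pool.Agent.Helper81.AD
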