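import Mathlib

/-! TAYLOR POLYNOMIALS of functions on a cube all of whose iterated partial derivatives up to some order are bounded;
one coordinate after the other. -/

set_option autoImplicit false

namespace Pool.Agent.Helper81.AD

open Finset Filter Topology

noncomputable section

/-- one variable -/
theorem taylor_one (a b : ℝ) : ∀ (r : ℕ) (φ : ℕ → ℝ → ℝ) (B : ℝ),
    (∀ m < r, ∀ t ∈ Set.Ioo a b, HasDerivAt (φ m) (φ (m + 1) t) t) → (∀ t ∈ Set.Ioo a b, |φ r t| ≤ B) →
    ∀ x ∈ Set.Ioo a b, ∀ y ∈ Set.Ioo a b,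
      |φ 0 y - ∑ m ∈ range r, φ m x / m.factorial * (y - x) ^ m| ≤ B * |y - x| ^ r := by
  intro r
  induction r with
  | zero =>
    intro φ B _ hB x _ y hy
    simpa using hB y hy
  | succ r ih =>
    intro φ B hd hB x hx y hy
    have hB0 : 0 ≤ B := (abs_nonneg _).trans (hB x hx)
    set ψ : ℝ → ℝ := fun t => φ 0 t - ∑ m ∈ range (r + 1), φ m x / m.factorial * (t - x) ^ m with hψ
    set ψ' : ℝ → ℝ := fun t => φ 1 t - ∑ m ∈ range r, φ (m + 1) x / m.factorial * (t - x) ^ m with hψ'
    have h1 : ∀ t ∈ Set.Ioo a b, |ψ' t| ≤ B * |t - x| ^ r := by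
      intro t ht
      exact ih (fun m => φ (m + 1)) B (fun m hm => hd (m + 1) (by omega)) hB x hx t ht
    have h2 : ∀ t ∈ Set.Ioo a b, HasDerivAt ψ (ψ' t) t := by
      intro t ht
      have h3 := hd 0 (by omega) t ht
      have h4 : HasDerivAt (fun t => ∑ m ∈ range (r + 1), φ m x / m.factorial * (t - x) ^ m)
          (∑ m ∈ range r, φ (m + 1) x / m.factorial * (t - x) ^ m) t := by
        have h5 : ∀ m ∈ range (r + 1), HasDerivAt (fun t => φ m x / m.factorial * (t - x) ^ m)
            (φ m x / m.factorial * (m * (t - x) ^ (m - 1))) t := by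
          intro m _
          have h6 : HasDerivAt (fun t : ℝ => (t - x) ^ m) ((m : ℝ) * (t - x) ^ (m - 1) * 1) t :=
            ((hasDerivAt_id t).sub_const x).pow m
          rw [mul_one] at h6
          exact h6.const_mul _
        have h7 := HasDerivAt.fun_sum h5
        refine h7.congr_deriv ?_
        rw [Finset.sum_range_succ']
        have e0 : φ 0 x / (Nat.factorial 0 : ℝ) * (((0 : ℕ) : ℝ) * (t - x) ^ (0 - 1)) = 0 := by
          rw [Nat.cast_zero, zero_mul, mul_zero]
        rw [e0, add_zero]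
        apply Finset.sum_congr rfl
        intro m _
        rw [Nat.factorial_succ, Nat.add_sub_cancel]
        push_cast
        have : (m.factorial : ℝ) ≠ 0 := by exact_mod_cast Nat.factorial_ne_zero m
        field_simp
      exact h3.sub h4
    have e0 : ψ x = 0 := by
      rw [hψ]
      show φ 0 x - ∑ m ∈ range (r + 1), φ m x / m.factorial * (x - x) ^ m = 0
      rw [Finset.sum_range_succ', sub_self]
      have : ∑ m ∈ range r, φ (m + 1) x / ((m + 1).factorial : ℝ) * (0 : ℝ) ^ (m + 1) = 0 := by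
        apply Finset.sum_eq_zero
        intro m _
        rw [pow_succ, mul_zero, mul_zero]
      rw [this]
      simp
    have hsub : Set.uIcc x y ⊆ Set.Ioo a b := (Set.ordConnected_Ioo).uIcc_subset hx hy
    have h8 : ∀ t ∈ Set.uIcc x y, ‖ψ' t‖ ≤ B * |y - x| ^ r := by
      intro t ht
      rw [Real.norm_eq_abs]
      refine (h1 t (hsub ht)).trans (mul_le_mul_of_nonneg_left ?_ hB0)
      apply pow_le_pow_left₀ (abs_nonneg _)
      exact Set.abs_sub_left_of_mem_uIcc ht
    have h9 := (convex_uIcc x y).norm_image_sub_le_of_norm_hasDerivWithin_le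
      (fun t ht => (h2 t (hsub ht)).hasDerivWithinAt) h8 Set.left_mem_uIcc Set.right_mem_uIcc
    rw [e0, sub_zero, Real.norm_eq_abs, Real.norm_eq_abs] at h9
    refine h9.trans (le_of_eq ?_)
    rw [pow_succ]
    ring

/-! ### several variables -/

variable {e : ℕ}

/-- the open cube -/
def oc (c : Fin e → ℝ) (ρ : ℝ) : Set (Fin e → ℝ) := {y | ∀ i, |y i - c i| < ρ}

/-- partial derivatives -/
def pd (i : Fin e) (f : (Fin e → ℝ) → ℝ) : (Fin e → ℝ) → ℝ := fun y => deriv (fun t => f (Function.update y i t)) (y i)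

/-- all iterated partial derivatives of order at most `r` exist and are bounded by `B` on the open cube -/
def Sm (c : Fin e → ℝ) (ρ B : ℝ) : ℕ → ((Fin e → ℝ) → ℝ) → Prop
  | 0, f => ∀ y ∈ oc c ρ, |f y| ≤ B
  | r + 1, f => (∀ y ∈ oc c ρ, |f y| ≤ B) ∧ ∀ i, (∀ y ∈ oc c ρ, HasDerivAt (fun t => f (Function.update y i t))
      (pd i f y) (y i)) ∧ Sm c ρ B r (pd i f)

variable {c : Fin e → ℝ} {ρ B : ℝ}

theorem Sm.bd {r : ℕ} {f : (Fin e → ℝ) → ℝ} (h : Sm c ρ B r f) : ∀ y ∈ oc c ρ, |f y| ≤ B := by
  cases r with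
  | zero => exact h
  | succ r => exact h.1

theorem Sm.anti {r : ℕ} : ∀ {s : ℕ} {f : (Fin e → ℝ) → ℝ}, Sm c ρ B r f → s ≤ r → Sm c ρ B s f := by
  induction r with
  | zero =>
    intro s f h hs
    obtain rfl : s = 0 := by omega
    exact h
  | succ r ih =>
    intro s f h hs
    cases s with
    | zero => exact h.1
    | succ s => exact ⟨h.1, fun i => ⟨(h.2 i).1, ih (h.2 i).2 (by omega)⟩⟩

theorem oc_update {y : Fin e → ℝ} (hy : y ∈ oc c ρ) (i : Fin e) {t : ℝ} (ht : |t - c i| < ρ) :
    Function.update y i t ∈ oc c ρ := by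
  intro j
  by_cases hj : j = i
  · rw [hj, Function.update_self]
    exact ht
  · rw [Function.update_of_ne hj]
    exact hy j

/-- derivatives are local -/
theorem pd_congr {f g : (Fin e → ℝ) → ℝ} (h : ∀ y ∈ oc c ρ, f y = g y) (i : Fin e) :
    ∀ y ∈ oc c ρ, (fun t => f (Function.update y i t)) =ᶠ[𝓝 (y i)] fun t => g (Function.update y i t) := by
  intro y hy
  have h1 : ∀ᶠ t in 𝓝 (y i), |t - c i| < ρ := by
    have h2 : Continuous fun t : ℝ => |t - c i| := by fun_prop
    exact h2.continuousAt.eventually_lt continuousAt_const (hy i)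
  filter_upwards [h1] with t ht
  exact h _ (oc_update hy i ht)

theorem Sm.congr {r : ℕ} : ∀ {f g : (Fin e → ℝ) → ℝ}, Sm c ρ B r f → (∀ y ∈ oc c ρ, f y = g y) → Sm c ρ B r g := by
  induction r with
  | zero =>
    intro f g h hfg y hy
    rw [← hfg y hy]
    exact h y hy
  | succ r ih =>
    intro f g h hfg
    refine ⟨fun y hy => by rw [← hfg y hy]; exact h.1 y hy, fun i => ?_⟩
    have h1 : ∀ y ∈ oc c ρ, pd i f y = pd i g y := fun y hy => (pd_congr hfg i y hy).deriv_eq
    refine ⟨fun y hy => ?_, ih (h.2 i).2 h1⟩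
    rw [← h1 y hy]
    exact ((h.2 i).1 y hy).congr_of_eventuallyEq (pd_congr hfg i y hy).symm

/-- iterated derivatives in one direction -/
theorem Sm.iter {r : ℕ} {f : (Fin e → ℝ) → ℝ} (i : Fin e) (m : ℕ) (h : Sm c ρ B (r + m) f) :
    Sm c ρ B r ((pd i)^[m] f) := by
  induction m generalizing f with
  | zero => exact h
  | succ m ih =>
    rw [Function.iterate_succ_apply]
    exact ih (h.2 i).2

/-- Taylor expansion in one coordinate -/
theorem taylor_coord (r R : ℕ) (f : (Fin e → ℝ) → ℝ) (h : Sm c ρ B (r + R) f) (i : Fin e) (w : Fin e → ℝ)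
    (hw : w ∈ oc c ρ) (x y : ℝ) (hx : |x - c i| < ρ) (hy : |y - c i| < ρ) :
    |f (Function.update w i y) - ∑ m ∈ range r, (pd i)^[m] f (Function.update w i x) / m.factorial * (y - x) ^ m| ≤
      B * |y - x| ^ r := by
  have hI : ∀ t : ℝ, t ∈ Set.Ioo (c i - ρ) (c i + ρ) ↔ |t - c i| < ρ := by
    intro t
    rw [abs_lt, Set.mem_Ioo]
    constructor
    · rintro ⟨h1, h2⟩; constructor <;> linarith
    · rintro ⟨h1, h2⟩; constructor <;> linarith
  refine taylor_one (c i - ρ) (c i + ρ) r (fun m t => (pd i)^[m] f (Function.update w i t)) B ?_ ?_ x ((hI x).2 hx) y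
    ((hI y).2 hy)
  · intro m hm t ht
    have h1 : Sm c ρ B (R + (r - 1 - m) + 1) ((pd i)^[m] f) := by
      apply Sm.iter
      apply h.anti
      omega
    have h2 := (h1.2 i).1 (Function.update w i t) (oc_update hw i ((hI t).1 ht))
    rw [Function.update_self] at h2
    have h3 : (pd i) ((pd i)^[m] f) = (pd i)^[m + 1] f := (Function.iterate_succ_apply' (pd i) m f).symm
    rw [h3] at h2
    simp only [Function.update_idem] at h2
    exact h2
  · intro t ht
    have h1 : Sm c ρ B R ((pd i)^[r] f) := by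
      apply Sm.iter
      apply h.anti
      omega
    exact h1.bd _ (oc_update hw i ((hI t).1 ht))

/-- the TAYLOR POLYNOMIAL at `y0` in the scaled variables, the coordinates of the list -/
def TP (η : ℝ) (y0 : Fin e → ℝ) (r : ℕ) : List (Fin e) → ((Fin e → ℝ) → ℝ) → MvPolynomial (Fin e) ℝ
  | [], f => MvPolynomial.C (f y0)
  | i :: L, f => ∑ m ∈ range r, MvPolynomial.C (η ^ m / m.factorial) * MvPolynomial.X i ^ m *
      TP η y0 r L ((pd i)^[m] f)

/-- the point with the coordinates of the list moved -/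
def mvl (y0 h : Fin e → ℝ) (L : List (Fin e)) : Fin e → ℝ := fun i => if i ∈ L then y0 i + h i else y0 i

theorem TP_deg (η : ℝ) (y0 : Fin e → ℝ) (r : ℕ) (L : List (Fin e)) (f : (Fin e → ℝ) → ℝ) :
    (TP η y0 r L f).totalDegree ≤ L.length * r := by
  induction L generalizing f with
  | nil =>
    rw [TP, MvPolynomial.totalDegree_C]
    exact Nat.zero_le _
  | cons i L ih =>
    rw [TP]
    refine (MvPolynomial.totalDegree_finsetSum _ _).trans (Finset.sup_le fun m hm => ?_)
    refine (MvPolynomial.totalDegree_mul _ _).trans ?_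
    have h1 : (MvPolynomial.C (η ^ m / m.factorial) * MvPolynomial.X i ^ m : MvPolynomial (Fin e) ℝ).totalDegree ≤ m := by
      refine (MvPolynomial.totalDegree_mul _ _).trans ?_
      rw [MvPolynomial.totalDegree_C, zero_add]
      refine (MvPolynomial.totalDegree_pow _ _).trans ?_
      rw [MvPolynomial.totalDegree_X, mul_one]
    have h2 := ih ((pd i)^[m] f)
    have h3 := Finset.mem_range.1 hm
    rw [List.length_cons, Nat.succ_mul]
    omega

/-- TAYLOR EXPANSION -/
theorem taylor_TP (hB : 0 ≤ B) {η : ℝ} (hη : 0 ≤ η) (hη1 : η ≤ 1) (y0 z : Fin e → ℝ) (hz : ∀ i, |z i| ≤ 1) (r : ℕ)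
    (hy0 : y0 ∈ oc c ρ) (hy : (fun i => y0 i + η * z i) ∈ oc c ρ) :
    ∀ (L : List (Fin e)), L.Nodup → ∀ f : (Fin e → ℝ) → ℝ, Sm c ρ B (L.length * r) f →
      |f (mvl y0 (fun i => η * z i) L) - MvPolynomial.eval z (TP η y0 r L f)| ≤
        B * ((r + 1 : ℝ) ^ L.length * L.length) * η ^ r := by
  have hm : ∀ L : List (Fin e), mvl y0 (fun i => η * z i) L ∈ oc c ρ := by
    intro L i
    unfold mvl
    split_ifs
    · exact hy i
    · exact hy0 i
  intro L
  induction L with
  | nil =>
    intro _ f _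
    rw [TP, MvPolynomial.eval_C]
    have e1 : mvl y0 (fun i => η * z i) [] = y0 := by
      funext i
      simp [mvl]
    rw [e1, sub_self, abs_zero]
    simp
  | cons i L ih =>
    intro hn f hf
    have hni : i ∉ L := (List.nodup_cons.1 hn).1
    have hnL : L.Nodup := (List.nodup_cons.1 hn).2
    have hlen : (i :: L).length * r = r + L.length * r := by
      rw [List.length_cons]
      ring
    rw [hlen] at hf
    set w := mvl y0 (fun i => η * z i) L with hw
    have e1 : mvl y0 (fun i => η * z i) (i :: L) = Function.update w i (y0 i + η * z i) := by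
      funext j
      by_cases hj : j = i
      · rw [hj, Function.update_self]
        unfold mvl
        rw [if_pos (List.mem_cons_self)]
      · rw [Function.update_of_ne hj, hw]
        unfold mvl
        have : j ∈ i :: L ↔ j ∈ L := by
          rw [List.mem_cons]
          exact ⟨fun h => h.resolve_left hj, Or.inr⟩
        simp only [this]
    have e2 : Function.update w i (y0 i) = w := by
      have : w i = y0 i := by
        rw [hw]
        unfold mvl
        rw [if_neg hni]
      rw [← this, Function.update_eq_self]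
    have h1 := taylor_coord r (L.length * r) f hf i w (hm L) (y0 i) (y0 i + η * z i) (hy0 i) (hy i)
    rw [e2, add_sub_cancel_left, ← e1] at h1
    have h2 : |η * z i| ^ r ≤ η ^ r := by
      apply pow_le_pow_left₀ (abs_nonneg _)
      rw [abs_mul, abs_of_nonneg hη]
      exact mul_le_of_le_one_right hη (hz i)
    have h3 : ∀ m ∈ range r, |(pd i)^[m] f w / m.factorial * (η * z i) ^ m -
        MvPolynomial.eval z (MvPolynomial.C (η ^ m / m.factorial) * MvPolynomial.X i ^ m *
          TP η y0 r L ((pd i)^[m] f))| ≤ B * ((r + 1 : ℝ) ^ L.length * L.length) * η ^ r := by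
      intro m hmr
      rw [map_mul, map_mul, map_pow, MvPolynomial.eval_C, MvPolynomial.eval_X]
      have h4 := ih hnL ((pd i)^[m] f) (by
        apply Sm.iter
        apply hf.anti
        have := Finset.mem_range.1 hmr
        omega)
      have e3 : (pd i)^[m] f w / m.factorial * (η * z i) ^ m -
          η ^ m / m.factorial * z i ^ m * MvPolynomial.eval z (TP η y0 r L ((pd i)^[m] f)) =
          (η ^ m / m.factorial * z i ^ m) *
            ((pd i)^[m] f w - MvPolynomial.eval z (TP η y0 r L ((pd i)^[m] f))) := by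
        rw [mul_pow]
        ring
      rw [e3, abs_mul]
      have h5 : |η ^ m / m.factorial * z i ^ m| ≤ 1 := by
        rw [abs_mul, abs_div, abs_pow, abs_pow, abs_of_nonneg hη]
        have h6 : η ^ m ≤ 1 := pow_le_one₀ hη hη1
        have h7 : |z i| ^ m ≤ 1 := pow_le_one₀ (abs_nonneg _) (hz i)
        have h8 : (1 : ℝ) ≤ |(m.factorial : ℝ)| := by
          rw [abs_of_nonneg (Nat.cast_nonneg _)]
          exact_mod_cast Nat.factorial_pos m
        have h9 : η ^ m / |(m.factorial : ℝ)| ≤ 1 := by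
          rw [div_le_one (by linarith)]
          linarith
        have h10 : 0 ≤ η ^ m / |(m.factorial : ℝ)| := by positivity
        calc η ^ m / |(m.factorial : ℝ)| * |z i| ^ m ≤ 1 * 1 := mul_le_mul h9 h7 (by positivity) zero_le_one
          _ = 1 := one_mul 1
      refine (mul_le_mul h5 h4 (abs_nonneg _) zero_le_one).trans (by rw [one_mul])
    rw [TP, map_sum]
    have e4 : f (mvl y0 (fun i => η * z i) (i :: L)) - ∑ m ∈ range r,
        MvPolynomial.eval z (MvPolynomial.C (η ^ m / m.factorial) * MvPolynomial.X i ^ m *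
          TP η y0 r L ((pd i)^[m] f)) =
        (f (mvl y0 (fun i => η * z i) (i :: L)) - ∑ m ∈ range r, (pd i)^[m] f w / m.factorial * (η * z i) ^ m) +
        ∑ m ∈ range r, ((pd i)^[m] f w / m.factorial * (η * z i) ^ m -
          MvPolynomial.eval z (MvPolynomial.C (η ^ m / m.factorial) * MvPolynomial.X i ^ m *
            TP η y0 r L ((pd i)^[m] f))) := by
      rw [Finset.sum_sub_distrib]
      ring
    rw [e4]
    refine (abs_add_le _ _).trans ?_
    have h11 : |∑ m ∈ range r, ((pd i)^[m] f w / m.factorial * (η * z i) ^ m -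
          MvPolynomial.eval z (MvPolynomial.C (η ^ m / m.factorial) * MvPolynomial.X i ^ m *
            TP η y0 r L ((pd i)^[m] f)))| ≤ r * (B * ((r + 1 : ℝ) ^ L.length * L.length) * η ^ r) := by
      refine (Finset.abs_sum_le_sum_abs _ _).trans ((Finset.sum_le_sum h3).trans ?_)
      rw [Finset.sum_const, Finset.card_range, nsmul_eq_mul]
    have h12 : B * |η * z i| ^ r ≤ B * η ^ r := mul_le_mul_of_nonneg_left h2 hB
    have hηr : 0 ≤ B * η ^ r := by positivity
    have h13 : (1 : ℝ) ≤ (r + 1 : ℝ) ^ L.length := one_le_pow₀ (by linarith [(Nat.cast_nonneg r : (0 : ℝ) ≤ r)])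
    rw [List.length_cons]
    push_cast
    have hr0 : (0 : ℝ) ≤ r := Nat.cast_nonneg r
    have hl0 : (0 : ℝ) ≤ L.length := Nat.cast_nonneg _
    have h14 : B * η ^ r + r * (B * ((r + 1 : ℝ) ^ L.length * L.length) * η ^ r) ≤
        B * ((r + 1 : ℝ) ^ (L.length + 1) * (L.length + 1)) * η ^ r := by
      have e5 : B * ((r + 1 : ℝ) ^ (L.length + 1) * (L.length + 1)) * η ^ r =
          B * η ^ r * ((r + 1 : ℝ) ^ (L.length + 1) * (L.length + 1)) := by ring
      have e6 : B * η ^ r + r * (B * ((r + 1 : ℝ) ^ L.length * L.length) * η ^ r) =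
          B * η ^ r * (1 + r * ((r + 1 : ℝ) ^ L.length * L.length)) := by ring
      rw [e5, e6]
      apply mul_le_mul_of_nonneg_left _ hηr
      rw [pow_succ]
      have h15 : 0 ≤ (r + 1 : ℝ) ^ L.length * L.length := by positivity
      nlinarith [mul_nonneg hr0 h15, mul_nonneg hr0 (sub_nonneg.mpr h13)]
    linarith [h1, h11, h12, h14]

theorem Sm.mono {B' : ℝ} (hB : B ≤ B') {r : ℕ} : ∀ {f : (Fin e → ℝ) → ℝ}, Sm c ρ B r f → Sm c ρ B' r f := by
  induction r with
  | zero =>
    intro f h y hy
    exact (h y hy).trans hB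
  | succ r ih =>
    intro f h
    exact ⟨fun y hy => (h.1 y hy).trans hB, fun i => ⟨(h.2 i).1, ih (h.2 i).2⟩⟩

/-- the coefficients of the Taylor polynomial -/
theorem TP_coeff (hB : 0 ≤ B) {η : ℝ} (hη : 0 ≤ η) (hη1 : η ≤ 1) (y0 : Fin e → ℝ) (hy0 : y0 ∈ oc c ρ) (r : ℕ) :
    ∀ (L : List (Fin e)) (f : (Fin e → ℝ) → ℝ), Sm c ρ B (L.length * r) f → ∀ a,
      |(TP η y0 r L f).coeff a| ≤ B * (r + 1 : ℝ) ^ L.length := by
  classical
  intro L
  induction L with
  | nil =>
    intro f hf a
    rw [TP, MvPolynomial.coeff_C]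
    split_ifs
    · simpa using hf.bd y0 hy0
    · rw [abs_zero]
      simpa using hB
  | cons i L ih =>
    intro f hf a
    have hlen : (i :: L).length * r = r + L.length * r := by
      rw [List.length_cons]
      ring
    rw [hlen] at hf
    rw [TP, MvPolynomial.coeff_sum]
    have hP : 0 ≤ B * (r + 1 : ℝ) ^ L.length := by positivity
    have h1 : ∀ m ∈ range r, |(MvPolynomial.C (η ^ m / m.factorial) * MvPolynomial.X i ^ m *
        TP η y0 r L ((pd i)^[m] f)).coeff a| ≤ B * (r + 1 : ℝ) ^ L.length := by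
      intro m hm
      rw [MvPolynomial.C_mul_X_pow_eq_monomial, MvPolynomial.coeff_monomial_mul']
      split_ifs
      · rw [abs_mul]
        have h5 : |η ^ m / (m.factorial : ℝ)| ≤ 1 := by
          rw [abs_div, abs_pow, abs_of_nonneg hη]
          have h6 : η ^ m ≤ 1 := pow_le_one₀ hη hη1
          have h8 : (1 : ℝ) ≤ |(m.factorial : ℝ)| := by
            rw [abs_of_nonneg (Nat.cast_nonneg _)]
            exact_mod_cast Nat.factorial_pos m
          rw [div_le_one (by linarith)]
          linarith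
        have h4 := ih ((pd i)^[m] f) (by
          apply Sm.iter
          apply hf.anti
          have := Finset.mem_range.1 hm
          omega) (a - Finsupp.single i m)
        exact (mul_le_mul h5 h4 (abs_nonneg _) zero_le_one).trans (by rw [one_mul])
      · rw [abs_zero]
        exact hP
    refine (Finset.abs_sum_le_sum_abs _ _).trans ((Finset.sum_le_sum h1).trans ?_)
    rw [Finset.sum_const, Finset.card_range, nsmul_eq_mul, List.length_cons, pow_succ]
    have hr0 : (0 : ℝ) ≤ r := Nat.cast_nonneg r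
    have hq : 0 ≤ (r + 1 : ℝ) ^ L.length := by positivity
    nlinarith [mul_nonneg hB hq]

/-- all coordinates moved -/
theorem mvl_finRange (y0 h : Fin e → ℝ) : mvl y0 h (List.finRange e) = fun i => y0 i + h i := by
  funext i
  unfold mvl
  rw [if_pos (List.mem_finRange i)]

/-- TAYLOR EXPANSION in all coordinates -/
theorem taylor_all (hB : 0 ≤ B) {η : ℝ} (hη : 0 ≤ η) (hη1 : η ≤ 1) (y0 z : Fin e → ℝ) (hz : ∀ i, |z i| ≤ 1) (r : ℕ)
    (hy0 : y0 ∈ oc c ρ) (hy : (fun i => y0 i + η * z i) ∈ oc c ρ) (f : (Fin e → ℝ) → ℝ) (hf : Sm c ρ B (e * r) f) :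
    |f (fun i => y0 i + η * z i) - MvPolynomial.eval z (TP η y0 r (List.finRange e) f)| ≤
      B * ((r + 1 : ℝ) ^ e * e) * η ^ r := by
  have h1 := taylor_TP hB hη hη1 y0 z hz r hy0 hy (List.finRange e) (List.nodup_finRange e) f (by
    rw [List.length_finRange]
    exact hf)
  rw [mvl_finRange, List.length_finRange] at h1
  exact h1

end

end Pool.Agent.Helper81.AD
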